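import Pool.Agent.U174.Green.Main

set_option autoImplicit false

namespace Pool.Agent.U174.Green

open Polynomial Module

section general

variable {k : Type} [Field k] {C : LineCurve k}

/-- The coefficients of a section. -/
noncomputable def coeffMap (F : C.TFSheaf) (N : ℕ) : F.H0 →ₗ[k] (Fin C.V → Fin N → k) where
  toFun s v n := (s.1 v).coeff n
  map_add' s t := by
    funext v n
    simp
  map_smul' c s := by
    funext v n
    simp

theorem coeffMap_inj (F : C.TFSheaf) (N : ℕ) (h : ∀ v, F.deg v < N) :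
    Function.Injective (coeffMap F N) := by
  rw [injective_iff_map_eq_zero]
  intro s hs
  apply Subtype.ext
  funext v
  ext n
  change (s.1 v).coeff n = (0 : k[X]).coeff n
  rw [coeff_zero]
  by_cases hn : n < N
  · exact congrFun (congrFun hs v) ⟨n, hn⟩
  · refine s.2.1 v n ?_
    have := h v
    omega

theorem finite_H0 (F : C.TFSheaf) : Module.Finite k F.H0 := by
  have h : ∀ v, F.deg v < ((∑ v, (F.deg v).natAbs + 1 : ℕ) : ℤ) := by
    intro v
    have h1 : (F.deg v).natAbs ≤ ∑ v, (F.deg v).natAbs :=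
      Finset.single_le_sum (f := fun v => (F.deg v).natAbs) (fun _ _ => Nat.zero_le _)
        (Finset.mem_univ v)
    omega
  exact Module.Finite.of_injective (coeffMap F _) (coeffMap_inj F _ h)

theorem h0_le (F : C.TFSheaf) (N : ℕ) (h : ∀ v, F.deg v < N) : F.h0 ≤ C.V * N := by
  have h1 := LinearMap.finrank_le_finrank_of_injective (coeffMap_inj F N h)
  rw [Module.finrank_pi_fintype] at h1
  rw [LineCurve.TFSheaf.h0]
  simpa using h1

theorem deg_omega_lt (v : Fin C.V) : C.omega.deg v < ((2 * C.E + 1 : ℕ) : ℤ) := by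
  have h : (C.branches v).card ≤ 2 * C.E := by
    refine (Finset.card_le_univ _).trans ?_
    rw [Fintype.card_prod, Fintype.card_fin, Fintype.card_fin, mul_comm]
  change ((C.branches v).card : ℤ) - 2 < _
  omega

theorem bddBelow_cliffordSet : BddBelow C.cliffordSet := by
  refine ⟨- 2 * (C.V * (2 * C.E + 1) : ℕ), ?_⟩
  rintro c ⟨F, h1, -, -, rfl⟩
  have h2 : F.h0 ≤ C.V * (2 * C.E + 1) := h0_le F _ fun v => (h1 v).2.trans_lt (deg_omega_lt v)
  have h3 : (C.V : ℤ) ≤ ∑ v, (F.deg v + 1) := by
    calc (C.V : ℤ) = ∑ _v : Fin C.V, (1 : ℤ) := by simp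
      _ ≤ _ := Finset.sum_le_sum fun v _ => by linarith [(h1 v).1]
  have h4 : F.free.card ≤ C.E := by
    refine (Finset.card_le_univ _).trans ?_
    rw [Fintype.card_fin]
  have h5 : C.structureSheaf.chi = C.V - C.E := by
    simp [LineCurve.TFSheaf.chi, LineCurve.structureSheaf]
  rw [LineCurve.TFSheaf.cliff, LineCurve.TFSheaf.degree, h5, LineCurve.TFSheaf.chi]
  have h2' : (F.h0 : ℤ) ≤ ((C.V * (2 * C.E + 1) : ℕ) : ℤ) := by exact_mod_cast h2
  have h4' : (F.free.card : ℤ) ≤ C.E := by exact_mod_cast h4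
  linarith

theorem isLeast_cliff (h : C.cliffordSet.Nonempty) : IsLeast C.cliffordSet C.cliff :=
  ⟨Int.csInf_mem h bddBelow_cliffordSet, fun _ hc => csInf_le bddBelow_cliffordSet hc⟩

end general

namespace Octa

variable (k : Type) [Field k] [CharZero k]

/-- The direct image of the structure sheaf of the disjoint union of the component `0` and the
union of the other components. -/
def cutSheaf : (octa k).TFSheaf where
  deg _ := 0
  free := Finset.univ.filter fun e : Fin 12 => compO e 0 ≠ 0 ∧ compO e 1 ≠ 0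
  glue _ := 1
  glue_ne _ := one_ne_zero

theorem mem_cutSheaf (s : Fin 6 → k[X]) : s ∈ (cutSheaf k).H0 ↔
    (∀ v, ∀ n : ℕ, 0 < n → (s v).coeff n = 0) ∧
    ∀ e : Fin 12, compO e 0 ≠ 0 ∧ compO e 1 ≠ 0 →
      (s (compO e 1)).eval (ptO e 1 : k) = (s (compO e 0)).eval (ptO e 0 : k) := by
  constructor
  · intro h
    refine ⟨fun v n hn => h.1 v n (Int.natCast_pos.2 hn), fun e he => ?_⟩
    have := h.2 e (Finset.mem_filter.2 ⟨Finset.mem_univ e, he⟩)
    change (s (compO e 1)).eval (ptO e 1 : k) = 1 * (s (compO e 0)).eval (ptO e 0 : k) at this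
    rwa [one_mul] at this
  · intro h
    refine ⟨fun v n hn => h.1 v n (Int.natCast_pos.1 hn), fun e he => ?_⟩
    have := h.2 e (Finset.mem_filter.1 he).2
    change (s (compO e 1)).eval (ptO e 1 : k) = 1 * (s (compO e 0)).eval (ptO e 0 : k)
    rwa [one_mul]

/-- The sections which are constant on the component `0` and on the union of the others. -/
noncomputable def cutSec (a b : k) (v : Fin 6) : k[X] := if v = 0 then C a else C b

theorem cutSec_mem (a b : k) : cutSec k a b ∈ (cutSheaf k).H0 := by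
  rw [mem_cutSheaf]
  refine ⟨fun v n hn => ?_, fun e he => ?_⟩
  · rw [cutSec]
    split_ifs <;> rw [coeff_C, if_neg (by omega)]
  · rw [cutSec, cutSec, if_neg he.1, if_neg he.2, eval_C, eval_C]

/-- The linear map `(a, b) ↦ cutSec a b`. -/
noncomputable def cutMap : (Fin 2 → k) →ₗ[k] (cutSheaf k).H0 where
  toFun a := ⟨cutSec k (a 0) (a 1), cutSec_mem k _ _⟩
  map_add' a b := by
    apply Subtype.ext
    funext v
    change cutSec k (a 0 + b 0) (a 1 + b 1) v = cutSec k (a 0) (a 1) v + cutSec k (b 0) (b 1) v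
    rw [cutSec, cutSec, cutSec]
    split_ifs <;> rw [C_add]
  map_smul' c a := by
    apply Subtype.ext
    funext v
    change cutSec k (c * a 0) (c * a 1) v = c • cutSec k (a 0) (a 1) v
    rw [cutSec, cutSec]
    split_ifs <;> rw [smul_eq_C_mul, C_mul]

theorem cutMap_inj : Function.Injective (cutMap k) := by
  rw [injective_iff_map_eq_zero]
  intro a ha
  have h : cutSec k (a 0) (a 1) = 0 := congrArg Subtype.val ha
  have h0 : (C (a 0) : k[X]) = 0 := congrFun h 0
  have h1 : (C (a 1) : k[X]) = 0 := congrFun h 1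
  funext i
  fin_cases i
  · exact C_eq_zero.1 h0
  · exact C_eq_zero.1 h1

theorem two_le_h0_cutSheaf : 2 ≤ (cutSheaf k).h0 := by
  have := finite_H0 (cutSheaf k)
  have h := LinearMap.finrank_le_finrank_of_injective (cutMap_inj k)
  rw [Module.finrank_fin_fun] at h
  exact h

theorem chi_cutSheaf : (cutSheaf k).chi = -2 := by
  change ∑ _v : Fin 6, ((0 : ℤ) + 1) -
    ((Finset.univ.filter fun e : Fin 12 => compO e 0 ≠ 0 ∧ compO e 1 ≠ 0).card : ℤ) = -2
  decide +kernel

theorem chi_structureSheaf : (octa k).structureSheaf.chi = -6 := by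
  change ∑ _v : Fin 6, ((0 : ℤ) + 1) - ((Finset.univ : Finset (Fin 12)).card : ℤ) = -6
  decide +kernel

theorem cliff_mem : (cutSheaf k).cliff ∈ (octa k).cliffordSet := by
  refine ⟨cutSheaf k, fun v => ⟨le_refl _, ?_⟩, two_le_h0_cutSheaf k, ?_, rfl⟩
  · rw [deg_omega (k := k) v]
    change (0 : ℤ) ≤ 2
    norm_num
  · rw [LineCurve.TFSheaf.h1, chi_cutSheaf]
    have := two_le_h0_cutSheaf k
    omega

theorem cliff_le : (octa k).cliff ≤ 2 := by
  refine (csInf_le bddBelow_cliffordSet (cliff_mem k)).trans ?_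
  rw [LineCurve.TFSheaf.cliff, LineCurve.TFSheaf.degree, chi_cutSheaf, chi_structureSheaf]
  have := two_le_h0_cutSheaf k
  omega

end Octa

end Pool.Agent.U174.Green
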