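import Mathlib

/-!
# Koszul cohomology

For a `k`-vector space `W`, `k`-vector spaces `M₀, M₁, M₂` and bilinear maps `W × M₀ → M₁`,
`W × M₁ → M₂` we consider the Koszul complex
`⋀ᵖ⁺¹ W ⊗ M₀ → ⋀ᵖ W ⊗ M₁ → ⋀ᵖ⁻¹ W ⊗ M₂`.
-/

set_option autoImplicit false

namespace Pool.Agent.U174.Green

open TensorProduct

/-- The exterior power `⋀ⁿ W`. -/
def Ext (k : Type) [Field k] (W : Type) [AddCommGroup W] [Module k W] (n : ℕ) : Type :=
  ⋀[k]^n W

noncomputable instance (k : Type) [Field k] (W : Type) [AddCommGroup W] [Module k W] (n : ℕ) :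
    AddCommGroup (Ext k W n) := inferInstanceAs (AddCommGroup (⋀[k]^n W))

noncomputable instance (k : Type) [Field k] (W : Type) [AddCommGroup W] [Module k W] (n : ℕ) :
    Module k (Ext k W n) := inferInstanceAs (Module k (⋀[k]^n W))

/-- The tensor product `⋀ⁿ W ⊗ M`. -/
def ExtT (k : Type) [Field k] (W : Type) [AddCommGroup W] [Module k W] (n : ℕ) (M : Type)
    [AddCommGroup M] [Module k M] : Type := Ext k W n ⊗[k] M

noncomputable instance (k : Type) [Field k] (W : Type) [AddCommGroup W] [Module k W] (n : ℕ)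
    (M : Type) [AddCommGroup M] [Module k M] : AddCommGroup (ExtT k W n M) :=
  inferInstanceAs (AddCommGroup (Ext k W n ⊗[k] M))

noncomputable instance (k : Type) [Field k] (W : Type) [AddCommGroup W] [Module k W] (n : ℕ)
    (M : Type) [AddCommGroup M] [Module k M] : Module k (ExtT k W n M) :=
  inferInstanceAs (Module k (Ext k W n ⊗[k] M))

/-- The alternating map `(w₀, ..., w_{n-1}) ↦ w₀ ∧ ... ∧ w_{n-1}`. -/
noncomputable def wedge (k : Type) [Field k] (W : Type) [AddCommGroup W] [Module k W] (n : ℕ) :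
    W [⋀^Fin n]→ₗ[k] Ext k W n := exteriorPower.ιMulti k n

/-- The element `(w₀ ∧ ... ∧ w_{n-1}) ⊗ m` of `⋀ⁿ W ⊗ M`. -/
noncomputable def wt (k : Type) [Field k] {W : Type} [AddCommGroup W] [Module k W] {n : ℕ}
    {M : Type} [AddCommGroup M] [Module k M] (w : Fin n → W) (m : M) : ExtT k W n M :=
  wedge k W n w ⊗ₜ[k] m

variable {k : Type} [Field k] {W : Type} [AddCommGroup W] [Module k W]

/-- The Koszul differential which belongs to the bilinear map `μ : W × M → M'`: the linear map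
`d : ⋀ⁿ⁺¹ W ⊗ M → ⋀ⁿ W ⊗ M'` with
`d ((w₀ ∧ ... ∧ wₙ) ⊗ m) = ∑ i, (-1) ^ i (w₀ ∧ ... ∧ ŵᵢ ∧ ... ∧ wₙ) ⊗ μ (wᵢ, m)`.
(The elements `(w₀ ∧ ... ∧ wₙ) ⊗ m` span the vector space, so `d` is unique.) -/
structure KoszulD {M M' : Type} [AddCommGroup M] [Module k M] [AddCommGroup M'] [Module k M']
    (μ : W → M → M') (n : ℕ) where
  /-- the linear map -/
  d : ExtT k W (n + 1) M →ₗ[k] ExtT k W n M'
  /-- the formula -/
  formula : ∀ (w : Fin (n + 1) → W) (m : M),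
    d (wt k w m) = ∑ i : Fin (n + 1), ((-1) ^ (i : ℕ) : k) • wt k (i.removeNth w) (μ (w i) m)

/-- The Koszul cohomology at the middle term of the Koszul complex
`⋀ⁿ⁺² W ⊗ M₀ → ⋀ⁿ⁺¹ W ⊗ M₁ → ⋀ⁿ W ⊗ M₂` is zero. -/
def KoszulVanishes {M₀ M₁ M₂ : Type} [AddCommGroup M₀] [Module k M₀] [AddCommGroup M₁]
    [Module k M₁] [AddCommGroup M₂] [Module k M₂] (μ₀ : W → M₀ → M₁) (μ₁ : W → M₁ → M₂)
    (n : ℕ) : Prop :=
  ∃ (D₁ : KoszulD (k := k) μ₀ (n + 1)) (D₀ : KoszulD (k := k) μ₁ n), Function.Exact D₁.d D₀.d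

end Pool.Agent.U174.Green
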