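import Pool.Agent.U174.Green.Pairing
import Pool.Agent.U174.Green.KDefs

set_option autoImplicit false

namespace Pool.Agent.U174.Green

open TensorProduct Module

section Criterion

variable {k : Type} [Field k] {W : Type} [AddCommGroup W] [Module k W]

/-- The map `⋀ⁿ W ⊗ W → ⋀ⁿ⁺¹ W`, `u ⊗ w ↦ w ∧ u`. -/
noncomputable def wedgeMul (n : ℕ) : (⋀[k]^n W) ⊗[k] W →ₗ[k] ⋀[k]^(n + 1) W :=
  TensorProduct.lift
    ((exteriorPower.alternatingMapLinearEquiv.toLinearMap ∘ₗ
      (exteriorPower.ιMulti k (n + 1) (M := W)).curryLeft).flip)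

theorem wedgeMul_ιMulti (n : ℕ) (v : Fin n → W) (w : W) :
    wedgeMul (k := k) n ((exteriorPower.ιMulti k n v) ⊗ₜ[k] w) =
      exteriorPower.ιMulti k (n + 1) (Matrix.vecCons w v) := by
  rw [wedgeMul, TensorProduct.lift.tmul, LinearMap.flip_apply, LinearMap.comp_apply,
    LinearEquiv.coe_coe, exteriorPower.alternatingMapLinearEquiv_apply_ιMulti]
  rfl

theorem ext_wedgeMul (n : ℕ) (ψ : Fin (n + 1) → Dual k W) (T : (⋀[k]^n W) ⊗[k] W) :
    ext (n + 1) ψ (wedgeMul n T) =
      ∑ j : Fin (n + 1), (-1) ^ (j : ℕ) * tp (ext n (fun i => ψ (j.succAbove i))) (ψ j) T := by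
  induction T using TensorProduct.induction_on with
  | zero => simp
  | add a b ha hb =>
    rw [map_add, map_add, ha, hb, ← Finset.sum_add_distrib]
    refine Finset.sum_congr rfl fun j _ => ?_
    rw [map_add, mul_add]
  | tmul u w =>
    have hu : u ∈ Submodule.span k (Set.range (exteriorPower.ιMulti k n (M := W))) := by
      rw [exteriorPower.ιMulti_span]
      trivial
    induction hu using Submodule.span_induction with
    | zero => simp
    | add x y _ _ hx hy =>
      rw [TensorProduct.add_tmul, map_add, map_add, hx, hy, ← Finset.sum_add_distrib]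
      refine Finset.sum_congr rfl fun j _ => ?_
      rw [map_add, mul_add]
    | smul c x _ hx =>
      rw [← TensorProduct.smul_tmul', map_smul, map_smul, hx, Finset.smul_sum]
      refine Finset.sum_congr rfl fun j _ => ?_
      rw [map_smul, smul_eq_mul, smul_eq_mul]
      ring
    | mem x hx =>
      obtain ⟨v, rfl⟩ := hx
      rw [wedgeMul_ιMulti, ext_ιMulti, Matrix.det_succ_row_zero]
      refine Finset.sum_congr rfl fun j _ => ?_
      rw [tp_tmul, ext_ιMulti]
      have : (Matrix.of fun i j => ψ j (Matrix.vecCons w v i)).submatrix Fin.succ j.succAbove =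
          Matrix.of fun i' j' => ψ (j.succAbove j') (v i') := by
        ext a b
        rfl
      rw [this]
      simp
      ring

/-- An element of `⋀ⁿ W ⊗ M` with zero coordinates is zero. -/
theorem eq_zero_of_coords {M : Type} [AddCommGroup M] [Module k M] {N : ℕ} (n : ℕ)
    (b : Basis (Fin N) k W) (b' : Basis (Fin N) k M) (T : (⋀[k]^n W) ⊗[k] M)
    (h : ∀ (s : Fin n → Fin N) (i : Fin N), tp (ext n (fun j => b.coord (s j))) (b'.coord i) T = 0) :
    T = 0 := by
  let B := (b.exteriorPower n).tensorProduct b'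
  apply B.repr.injective
  rw [map_zero]
  ext ⟨S, i⟩
  have h1 : ∀ T : (⋀[k]^n W) ⊗[k] M, B.repr T (S, i) =
      tp (ext n (fun j => b.coord (Set.powersetCard.ofFinEmbEquiv.symm S j))) (b'.coord i) T := by
    intro T
    induction T using TensorProduct.induction_on with
    | zero => simp
    | add x y hx hy => rw [map_add, map_add, Finsupp.add_apply, hx, hy]
    | tmul u m =>
      rw [tp_tmul, Basis.tensorProduct_repr_tmul_apply, exteriorPower.basis_repr_apply]
      rw [smul_eq_mul, mul_comm, exteriorPower.ιMultiDual, exteriorPower.ιMulti_family,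
        exteriorPower.pairingDual, exteriorPower.alternatingMapLinearEquiv_apply_ιMulti]
      rfl
  rw [h1]
  exact h _ _

theorem tp_sum_right {A B : Type} [AddCommGroup A] [Module k A] [AddCommGroup B] [Module k B]
    {N : ℕ} (f : A →ₗ[k] k) (c : Fin N → k) (g : Fin N → B →ₗ[k] k) (T : A ⊗[k] B) :
    tp f (∑ i, c i • g i) T = ∑ i, c i * tp f (g i) T := by
  induction T using TensorProduct.induction_on with
  | zero => simp
  | add x y hx hy =>
    rw [map_add, hx, hy, ← Finset.sum_add_distrib]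
    refine Finset.sum_congr rfl fun j _ => ?_
    rw [map_add, mul_add]
  | tmul u m =>
    rw [tp_tmul, LinearMap.sum_apply, Finset.mul_sum]
    refine Finset.sum_congr rfl fun j _ => ?_
    rw [tp_tmul, LinearMap.smul_apply, smul_eq_mul]
    ring

theorem tp_sum_left {A B : Type} [AddCommGroup A] [Module k A] [AddCommGroup B] [Module k B]
    {N : ℕ} (f : Fin N → A →ₗ[k] k) (c : Fin N → k) (g : B →ₗ[k] k) (T : A ⊗[k] B) :
    tp (∑ i, c i • f i) g T = ∑ i, c i * tp (f i) g T := by
  induction T using TensorProduct.induction_on with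
  | zero => simp
  | add x y hx hy =>
    rw [map_add, hx, hy, ← Finset.sum_add_distrib]
    refine Finset.sum_congr rfl fun j _ => ?_
    rw [map_add, mul_add]
  | tmul u m =>
    rw [tp_tmul, LinearMap.sum_apply, Finset.sum_mul]
    refine Finset.sum_congr rfl fun j _ => ?_
    rw [tp_tmul, LinearMap.smul_apply, smul_eq_mul]
    ring

theorem ext_vecCons_sum {N n : ℕ} (c : Fin N → k) (f : Fin N → Dual k W) (ψ : Fin n → Dual k W) :
    ext (n + 1) (Matrix.vecCons (∑ i, c i • f i) ψ) =
      ∑ i, c i • ext (n + 1) (Matrix.vecCons (f i) ψ) := by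
  let L : Dual k W →ₗ[k] Dual k (⋀[k]^(n + 1) W) :=
    { toFun := fun x => ext (k := k) (W := W) (n + 1) (Matrix.vecCons x ψ)
      map_add' := fun x y => by
        have := (ext (k := k) (W := W) (n + 1)).curryLeft.map_add x y
        exact DFunLike.congr_fun this ψ
      map_smul' := fun c x => by
        have := (ext (k := k) (W := W) (n + 1)).curryLeft.map_smul c x
        exact DFunLike.congr_fun this ψ }
  have h := map_sum L (fun i => c i • f i) Finset.univ
  refine h.trans (Finset.sum_congr rfl fun i _ => ?_)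
  exact L.map_smul (c i) (f i)

theorem tp_neg_left {A B : Type} [AddCommGroup A] [Module k A] [AddCommGroup B] [Module k B]
    (f : A →ₗ[k] k) (g : B →ₗ[k] k) (T : A ⊗[k] B) : tp (-f) g T = - tp f g T := by
  induction T using TensorProduct.induction_on with
  | zero => simp
  | add x y hx hy => rw [map_add, map_add, hx, hy]; ring
  | tmul u m => simp [tp_tmul]

/-- The coordinates of an element of `⋀³ W ⊗ W`. -/
noncomputable def cf {N : ℕ} (b : Basis (Fin N) k W) (T : (⋀[k]^3 W) ⊗[k] W)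
    (i j a c : Fin N) : k :=
  tp (ext 3 ![b.coord j, b.coord a, b.coord c]) (b.coord i) T

theorem cf_swap1 {N : ℕ} (b : Basis (Fin N) k W) (T : (⋀[k]^3 W) ⊗[k] W)
    (i j a c : Fin N) : cf b T i j a c = - cf b T i a j c := by
  have := (ext (k := k) (W := W) 3).map_swap ![b.coord j, b.coord a, b.coord c]
    (i := 0) (j := 1) (by decide)
  have h2 : (![b.coord j, b.coord a, b.coord c] ∘ (Equiv.swap (0 : Fin 3) 1)) =
      ![b.coord a, b.coord j, b.coord c] := by
    funext t
    fin_cases t <;> rfl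
  rw [h2] at this
  rw [cf, cf, this, tp_neg_left, neg_neg]

theorem cf_swap2 {N : ℕ} (b : Basis (Fin N) k W) (T : (⋀[k]^3 W) ⊗[k] W)
    (i j a c : Fin N) : cf b T i j a c = - cf b T i j c a := by
  have := (ext (k := k) (W := W) 3).map_swap ![b.coord j, b.coord a, b.coord c]
    (i := 1) (j := 2) (by decide)
  have h2 : (![b.coord j, b.coord a, b.coord c] ∘ (Equiv.swap (1 : Fin 3) 2)) =
      ![b.coord j, b.coord c, b.coord a] := by
    funext t
    fin_cases t <;> rfl
  rw [h2] at this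
  rw [cf, cf, this, tp_neg_left, neg_neg]

theorem cf_eq1 {N : ℕ} (b : Basis (Fin N) k W) (T : (⋀[k]^3 W) ⊗[k] W)
    (i j a : Fin N) : cf b T i j j a = 0 := by
  rw [cf, (ext (k := k) (W := W) 3).map_eq_zero_of_eq ![b.coord j, b.coord j, b.coord a]
    (i := 0) (j := 1) rfl (by decide)]
  simp [tp]

theorem cf_eq2 {N : ℕ} (b : Basis (Fin N) k W) (T : (⋀[k]^3 W) ⊗[k] W)
    (i j a : Fin N) : cf b T i a j j = 0 := by
  rw [cf, (ext (k := k) (W := W) 3).map_eq_zero_of_eq ![b.coord a, b.coord j, b.coord j]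
    (i := 1) (j := 2) rfl (by decide)]
  simp [tp]

theorem koszulVanishes_of_exact {M₀ M₁ M₂ : Type} [AddCommGroup M₀] [Module k M₀]
    [AddCommGroup M₁] [Module k M₁] [AddCommGroup M₂] [Module k M₂] (μ₀ : W →ₗ[k] M₀ →ₗ[k] M₁)
    (μ₁ : W →ₗ[k] M₁ →ₗ[k] M₂) (n : ℕ) (h : Function.Exact (koszulD μ₀ (n + 1)) (koszulD μ₁ n)) :
    KoszulVanishes (k := k) (fun w m => μ₀ w m) (fun w m => μ₁ w m) n :=
  ⟨⟨koszulD μ₀ (n + 1), fun w m => koszulD_ιMulti μ₀ (n + 1) w m⟩,
    ⟨koszulD μ₁ n, fun w m => koszulD_ιMulti μ₁ n w m⟩, h⟩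

/-- **Criterion for the vanishing of `K_{3,1}`.** -/
theorem koszulVanishes_of_criterion {M₀ M₁ M₂ : Type} [AddCommGroup M₀] [Module k M₀]
    [AddCommGroup M₁] [Module k M₁] [AddCommGroup M₂] [Module k M₂] (μ₀ : W →ₗ[k] M₀ →ₗ[k] M₁)
    (μ₁ : W →ₗ[k] M₁ →ₗ[k] M₂) (hcomm : ∀ w w' m, μ₁ w (μ₀ w' m) = μ₁ w' (μ₀ w m))
    (h4 : (4 : k) ≠ 0) {N : ℕ} (b : Basis (Fin N) k W) (e : W ≃ₗ[k] M₁) (one : M₀)
    (h1 : ∀ w, μ₀ w one = e w) {ι : Type} (x : ι → Dual k W) (y : ι → Dual k M₂)
    (hxy : ∀ s w w', y s (μ₁ w (e w')) = x s w * x s w')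
    (crit : ∀ G : Fin N → Fin N → Fin N → Fin N → k,
      (∀ i j a c, G i j a c = - G i a j c) → (∀ i j a c, G i j a c = - G i j c a) →
      (∀ i j a, G i j j a = 0) → (∀ i j a, G i a j j = 0) →
      (∀ s a c, ∑ i, ∑ j, x s (b i) * x s (b j) * G i j a c = 0) →
      ∀ i j a c, G i j a c = - G j i a c) :
    KoszulVanishes (k := k) (fun w m => μ₀ w m) (fun w m => μ₁ w m) 2 := by
  apply koszulVanishes_of_exact
  intro T
  constructor
  swap
  · rintro ⟨U, rfl⟩
    exact koszulD_comp μ₀ μ₁ hcomm 2 U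
  intro hT
  -- transport `T`
  set T' : (⋀[k]^3 W) ⊗[k] W := LinearMap.lTensor (⋀[k]^3 W) e.symm.toLinearMap T with hT'
  have htrans : ∀ (f : Dual k (⋀[k]^3 W)) (φ : Dual k M₁),
      tp f φ T = tp f (φ ∘ₗ e.toLinearMap) T' := by
    intro f φ
    rw [hT']
    generalize T = T
    induction T using TensorProduct.induction_on with
    | zero => simp
    | add x y hx hy => rw [map_add, map_add, map_add, hx, hy]
    | tmul u m => simp [tp_tmul]
  have hG : ∀ i j a c, cf b T' i j a c = - cf b T' j i a c := by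
    apply crit
    · exact cf_swap1 b T'
    · exact cf_swap2 b T'
    · exact cf_eq1 b T'
    · exact cf_eq2 b T'
    · intro s a c
      have h := pair_koszulD μ₁ 2 ![b.coord a, b.coord c] (x s) (x s ∘ₗ e.symm.toLinearMap) (y s)
        (by
          intro w m
          have := hxy s w (e.symm m)
          rw [e.apply_symm_apply] at this
          simpa using this) T
      rw [hT, map_zero, htrans] at h
      have h2 : (x s ∘ₗ e.symm.toLinearMap) ∘ₗ e.toLinearMap = x s := by
        ext w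
        simp
      rw [h2] at h
      have hx : x s = ∑ i, x s (b i) • b.coord i := (Basis.sum_dual_apply_smul_coord b (x s)).symm
      rw [hx, ext_vecCons_sum, tp_sum_right] at h
      rw [h]
      refine Finset.sum_congr rfl fun i _ => ?_
      rw [tp_sum_left, Finset.mul_sum]
      refine Finset.sum_congr rfl fun j _ => ?_
      show _ = _ * (_ * tp _ _ _)
      rw [mul_assoc]
      rfl
  refine ⟨((4 : k)⁻¹ • wedgeMul 3 T') ⊗ₜ[k] one, ?_⟩
  rw [← sub_eq_zero]
  apply eq_zero_of_coords 3 b (b.map e)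
  intro s i
  have hc : ((b.map e).coord i : Dual k M₁) = b.coord i ∘ₗ e.symm.toLinearMap := by
    ext m
    simp
  rw [map_sub, hc, htrans, pair_koszulD_tmul]
  have h2 : (b.coord i ∘ₗ e.symm.toLinearMap) ∘ₗ e.toLinearMap = b.coord i := by
    ext w
    simp
  have h3 : (b.coord i ∘ₗ e.symm.toLinearMap) ∘ₗ μ₀.flip one = b.coord i := by
    ext w
    simp [h1]
  rw [h2, h3, map_smul, ext_wedgeMul, Fin.sum_univ_four]
  have e0 : (fun i_1 : Fin 3 => (Matrix.vecCons (b.coord i) fun j => b.coord (s j))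
      ((0 : Fin 4).succAbove i_1)) = ![b.coord (s 0), b.coord (s 1), b.coord (s 2)] := by
    funext t
    fin_cases t <;> rfl
  have e1 : (fun i_1 : Fin 3 => (Matrix.vecCons (b.coord i) fun j => b.coord (s j))
      ((1 : Fin 4).succAbove i_1)) = ![b.coord i, b.coord (s 1), b.coord (s 2)] := by
    funext t
    fin_cases t <;> rfl
  have e2 : (fun i_1 : Fin 3 => (Matrix.vecCons (b.coord i) fun j => b.coord (s j))
      ((2 : Fin 4).succAbove i_1)) = ![b.coord i, b.coord (s 0), b.coord (s 2)] := by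
    funext t
    fin_cases t <;> rfl
  have e3 : (fun i_1 : Fin 3 => (Matrix.vecCons (b.coord i) fun j => b.coord (s j))
      ((3 : Fin 4).succAbove i_1)) = ![b.coord i, b.coord (s 0), b.coord (s 1)] := by
    funext t
    fin_cases t <;> rfl
  have e4 : (fun j => b.coord (s j)) = ![b.coord (s 0), b.coord (s 1), b.coord (s 2)] := by
    funext t
    fin_cases t <;> rfl
  rw [e0, e1, e2, e3, e4]
  change (4 : k)⁻¹ • (_ * cf b T' i (s 0) (s 1) (s 2) +
    _ * cf b T' (s 0) i (s 1) (s 2) + _ * cf b T' (s 1) i (s 0) (s 2) +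
    _ * cf b T' (s 2) i (s 0) (s 1)) - cf b T' i (s 0) (s 1) (s 2) = 0
  have r1 : cf b T' (s 0) i (s 1) (s 2) = - cf b T' i (s 0) (s 1) (s 2) := hG _ _ _ _
  have r2 : cf b T' (s 1) i (s 0) (s 2) = cf b T' i (s 0) (s 1) (s 2) := by
    rw [hG, cf_swap1, neg_neg]
  have r3 : cf b T' (s 2) i (s 0) (s 1) = - cf b T' i (s 0) (s 1) (s 2) := by
    rw [hG, cf_swap1, cf_swap2, neg_neg]
  rw [r1, r2, r3]
  simp
  field_simp
  ring

end Criterion

end Pool.Agent.U174.Green
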