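import Pool.Agent.U174.Green.KDefs

/-!
# Nodal curves with rational components

The nodal curves all of whose irreducible components are projective lines, their torsion free
sheaves of rank one, the dualizing sheaf, the Clifford index and the Koszul cohomology groups
`K_{p,q}(C, ω_C)`.
-/

set_option autoImplicit false

namespace Pool.Agent.U174.Green

open Polynomial TensorProduct Module

/-- A nodal curve `C` all of whose irreducible components are projective lines: the reduced curve
which is obtained from `V` projective lines, each with an affine coordinate, by gluing, for every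
`e : Fin E`, the point with the coordinate `pt e 0` of the line `comp e 0` and the point with the
coordinate `pt e 1` of the line `comp e 1` to a node. (The coordinates are chosen such that the
points at infinity are not glued.) -/
structure LineCurve (k : Type) [Field k] where
  /-- the number of components `C_v`, `v : Fin V` -/
  V : ℕ
  /-- the number of nodes -/
  E : ℕ
  /-- the two components through a node -/
  comp : Fin E → Fin 2 → Fin V
  /-- the coordinates of the node on the two components -/
  pt : Fin E → Fin 2 → k
  /-- the components are smooth: the two components through a node are different -/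
  comp_ne : ∀ e, comp e 0 ≠ comp e 1
  /-- the points which are glued are different -/
  inj : ∀ e i e' i', comp e i = comp e' i' → pt e i = pt e' i' → e = e' ∧ i = i'

namespace LineCurve

variable {k : Type} [Field k] (C : LineCurve k)

/-- The points of the component `v` which are nodes of `C`: the pair `(e, i)` is the point on the
component `comp e i` at the node `e`. -/
def branches (v : Fin C.V) : Finset (Fin C.E × Fin 2) :=
  Finset.univ.filter fun x => C.comp x.1 x.2 = v

/-- The number of nodes of `C` all of whose branches are in the subcurve which is the union of the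
components in `B`. -/
def nodesIn (B : Finset (Fin C.V)) : ℕ :=
  (Finset.univ.filter fun e : Fin C.E => C.comp e 0 ∈ B ∧ C.comp e 1 ∈ B).card

/-- The arithmetic genus `1 - χ(𝒪_B)` of the subcurve `B`: by the exact sequence
`0 → 𝒪_B → ⊕ 𝒪_{C_v} → ⊕ k → 0`, `χ(𝒪_B)` is the number of the components minus the number of
the nodes. -/
def paOf (B : Finset (Fin C.V)) : ℤ := 1 - ((B.card : ℤ) - C.nodesIn B)

/-- The arithmetic genus of `C`. -/
def pa : ℤ := C.paOf Finset.univ

/-- A torsion free sheaf `F` of rank one on `C`. It is the direct image of a line bundle on the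
partial normalisation of `C` at the nodes at which `F` is not locally free; a line bundle on a
union of projective lines is given by its degrees and by the gluing of the fibres at the
nodes. -/
structure TFSheaf where
  /-- the degree `d` of `F|_{C_v}` (modulo torsion), which is the line bundle `𝒪(d)` -/
  deg : Fin C.V → ℤ
  /-- the nodes at which `F` is locally free -/
  free : Finset (Fin C.E)
  /-- at such a node `e` the fibre of the line bundle on `comp e 0` at the point `pt e 0` is
  glued to the one on `comp e 1` at `pt e 1` by the multiplication by `glue e` -/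
  glue : Fin C.E → k
  glue_ne : ∀ e, glue e ≠ 0

variable {C}

namespace TFSheaf

/-- The global sections. A section of `𝒪(d)` on the projective line is a polynomial of degree at
most `d` in the affine coordinate. -/
def H0 (F : C.TFSheaf) : Submodule k (Fin C.V → k[X]) where
  carrier := {s | (∀ v, ∀ n : ℕ, F.deg v < n → (s v).coeff n = 0) ∧
    ∀ e ∈ F.free, (s (C.comp e 1)).eval (C.pt e 1) = F.glue e * (s (C.comp e 0)).eval (C.pt e 0)}
  add_mem' := by
    intro s t hs ht
    refine ⟨fun v n hn => ?_, fun e he => ?_⟩
    · rw [Pi.add_apply, coeff_add, hs.1 v n hn, ht.1 v n hn, add_zero]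
    · rw [Pi.add_apply, Pi.add_apply, eval_add, eval_add, hs.2 e he, ht.2 e he, mul_add]
  zero_mem' := by
    refine ⟨fun v n hn => ?_, fun e he => ?_⟩
    · rw [Pi.zero_apply, coeff_zero]
    · rw [Pi.zero_apply, Pi.zero_apply, eval_zero, eval_zero, mul_zero]
  smul_mem' := by
    intro c s hs
    refine ⟨fun v n hn => ?_, fun e he => ?_⟩
    · rw [Pi.smul_apply, coeff_smul, hs.1 v n hn, smul_zero]
    · rw [Pi.smul_apply, Pi.smul_apply, eval_smul, eval_smul, hs.2 e he, smul_eq_mul, smul_eq_mul,
        mul_left_comm]

/-- `h⁰(F)`. -/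
noncomputable def h0 (F : C.TFSheaf) : ℕ := finrank k F.H0

/-- The Euler characteristic of `F`, by the exact sequence `0 → F → ⊕ 𝒪(deg v) → ⊕ k → 0` (the
last sum is over the nodes at which `F` is locally free). -/
def chi (F : C.TFSheaf) : ℤ := ∑ v, (F.deg v + 1) - F.free.card

/-- `h¹(F) = h⁰(F) - χ(F)`. -/
noncomputable def h1 (F : C.TFSheaf) : ℤ := F.h0 - F.chi

end TFSheaf

variable (C) in
/-- The structure sheaf. -/
def structureSheaf : C.TFSheaf where
  deg _ := 0
  free := Finset.univ
  glue _ := 1
  glue_ne _ := one_ne_zero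

namespace TFSheaf

/-- The degree `χ(F) - χ(𝒪_C)` of `F`. -/
def degree (F : C.TFSheaf) : ℤ := F.chi - C.structureSheaf.chi

/-- The Clifford index `deg F - 2 h⁰(F) + 2` of `F`. -/
noncomputable def cliff (F : C.TFSheaf) : ℤ := F.degree - 2 * F.h0 + 2

/-- The powers of a line bundle. -/
def pow (F : C.TFSheaf) (q : ℕ) : C.TFSheaf where
  deg v := q * F.deg v
  free := F.free
  glue e := F.glue e ^ q
  glue_ne e := pow_ne_zero q (F.glue_ne e)

theorem mul_mem (L : C.TFSheaf) (q : ℕ) {s t : Fin C.V → k[X]} (hs : s ∈ L.H0)
    (ht : t ∈ (L.pow q).H0) : s * t ∈ (L.pow (q + 1)).H0 := by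
  refine ⟨fun v n hn => ?_, fun e he => ?_⟩
  · rw [Pi.mul_apply, coeff_mul]
    refine Finset.sum_eq_zero fun x hx => ?_
    have hx' := Finset.HasAntidiagonal.mem_antidiagonal.1 hx
    by_cases h1 : L.deg v < x.1
    · rw [hs.1 v _ h1, zero_mul]
    · have h2 : (L.pow q).deg v < x.2 := by
        have h3 : (L.pow (q + 1)).deg v = L.deg v + (L.pow q).deg v := by
          simp only [pow]
          push_cast
          ring
        rw [h3] at hn
        have h4 : (n : ℤ) = x.1 + x.2 := by exact_mod_cast hx'.symm
        omega
      rw [ht.1 v _ h2, mul_zero]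
  · rw [Pi.mul_apply, Pi.mul_apply, eval_mul, eval_mul, hs.2 e he, ht.2 e he]
    simp only [pow, pow_succ]
    ring

/-- The vector space `H⁰(F)` as a type. -/
def Sec (F : C.TFSheaf) : Type := F.H0

noncomputable instance (F : C.TFSheaf) : AddCommGroup F.Sec := inferInstanceAs (AddCommGroup F.H0)

noncomputable instance (F : C.TFSheaf) : Module k F.Sec := inferInstanceAs (Module k F.H0)

/-- The family of polynomials of a section. -/
def fn {F : C.TFSheaf} (s : F.Sec) : Fin C.V → k[X] := s.1

theorem mul_mem' (L : C.TFSheaf) (q : ℕ) (s : L.Sec) (t : (L.pow q).Sec) :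
    fn s * fn t ∈ (L.pow (q + 1)).H0 := L.mul_mem q s.2 t.2

/-- The multiplication `H⁰(L) × H⁰(L^q) → H⁰(L^{q+1})`. -/
noncomputable def mul (L : C.TFSheaf) (q : ℕ) (s : L.Sec) (t : (L.pow q).Sec) :
    (L.pow (q + 1)).Sec :=
  ⟨fn s * fn t, L.mul_mem' q s t⟩

end TFSheaf

variable (C)

/-- For a node `e` and `v = comp e i` the product of the differences of the coordinate of `e` on
`C_v` and the coordinates of the other nodes on `C_v`. -/
def diffProd (x : Fin C.E × Fin 2) : k :=
  ∏ y ∈ (C.branches (C.comp x.1 x.2)).erase x, (C.pt x.1 x.2 - C.pt y.1 y.2)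

theorem diffProd_ne_zero (x : Fin C.E × Fin 2) : C.diffProd x ≠ 0 := by
  rw [diffProd, Finset.prod_ne_zero_iff]
  intro y hy h
  obtain ⟨h1, h2⟩ := Finset.mem_erase.1 hy
  apply h1
  have h3 := (Finset.mem_filter.1 h2).2
  obtain ⟨h4, h5⟩ := C.inj _ _ _ _ h3 (sub_eq_zero.1 h).symm
  exact Prod.ext h4 h5

/-- The dualizing sheaf `ω_C`. Its sections are the families of the differentials
`η_v = s_v(t) dt / ∏_y (t - pt y)` on the components, `y` running through the nodes on `C_v`
(simple poles at the nodes; the polynomial `s_v` has degree at most the number of the nodes on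
`C_v` minus `2`), such that at every node the sum of the two residues is zero. The residue of `η_v`
at `x` is `s_v(pt x) / diffProd x`. -/
noncomputable def omega : C.TFSheaf where
  deg v := (C.branches v).card - 2
  free := Finset.univ
  glue e := - (C.diffProd (e, 1) / C.diffProd (e, 0))
  glue_ne _ := neg_ne_zero.2 (div_ne_zero (C.diffProd_ne_zero _) (C.diffProd_ne_zero _))

/-- The intersection number `A · B = deg_B(ω_C) - (2 p_a(B) - 2)` of the subcurve `B` and its
complement `A`. -/
noncomputable def inter (B : Finset (Fin C.V)) : ℤ := ∑ v ∈ B, C.omega.deg v - (2 * C.paOf B - 2)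

/-- `C` is `m`-connected: `A · B ≥ m` for every decomposition into two subcurves without common
components. -/
def MConnected (m : ℤ) : Prop :=
  ∀ B : Finset (Fin C.V), B.Nonempty → B ≠ Finset.univ → m ≤ C.inter B

/-- `C` is connected: every decomposition into two subcurves has a node which is on both. -/
def Connected : Prop :=
  0 < C.V ∧ ∀ B : Finset (Fin C.V), B.Nonempty → B ≠ Finset.univ →
    ∃ e i j, C.comp e i ∈ B ∧ C.comp e j ∉ B

/-- `C` is hyperelliptic: there is a finite morphism of degree two to the projective line. A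
morphism to the projective line is given by rational functions `f_v / g_v` on the components, with
coprime polynomials `f_v`, `g_v`, which agree at the nodes. Its degree on the component `v` is the
maximum of the degrees of `f_v` and `g_v`; it is finite if all these numbers are positive. -/
def Hyperelliptic : Prop :=
  ∃ f g : Fin C.V → k[X], (∀ v, IsCoprime (f v) (g v)) ∧
    (∀ e, (f (C.comp e 0)).eval (C.pt e 0) * (g (C.comp e 1)).eval (C.pt e 1) =
      (f (C.comp e 1)).eval (C.pt e 1) * (g (C.comp e 0)).eval (C.pt e 0)) ∧
    (∀ v, 1 ≤ max (f v).natDegree (g v).natDegree) ∧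
    ∑ v, max (f v).natDegree (g v).natDegree = 2

/-- The Clifford indices of the torsion free sheaves `F` of rank one with
`0 ≤ deg F|_{C_v} ≤ deg ω_C|_{C_v}` for all `v`, `h⁰(F) ≥ 2` and `h¹(F) ≥ 2`. -/
def cliffordSet : Set ℤ :=
  {c | ∃ F : C.TFSheaf, (∀ v, 0 ≤ F.deg v ∧ F.deg v ≤ C.omega.deg v) ∧ 2 ≤ F.h0 ∧ 2 ≤ F.h1 ∧
    c = F.cliff}

/-- The Clifford index of `C`, the minimum of the set `cliffordSet`. -/
noncomputable def cliff : ℤ := sInf C.cliffordSet

/-- `K_{n+1,1}(C, ω_C) = 0`: the complex
`⋀ⁿ⁺² H⁰(ω_C) ⊗ H⁰(ω_C^0) → ⋀ⁿ⁺¹ H⁰(ω_C) ⊗ H⁰(ω_C) → ⋀ⁿ H⁰(ω_C) ⊗ H⁰(ω_C^2)` is exact. -/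
def KZero (n : ℕ) : Prop := KoszulVanishes (k := k) (C.omega.mul 0) (C.omega.mul 1) n

end LineCurve

end Pool.Agent.U174.Green
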