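import Mathlib

/-!
The elimination for the octahedral curve. (This file was written by a program.)
-/

set_option autoImplicit false

namespace Pool.Agent.U174.Green.Octa

set_option linter.unusedVariables false in
theorem elimCore {k : Type} [Field k] [CharZero k] {ι : Type} (x0 x1 x2 x3 x4 x5 x6 : ι)
    (S : ι → ι → ι → ι → k)
    (Z1 : ∀ i a c, S i a a c = 0) (Z2 : ∀ j a c, S a j a c = 0)
    (Z3 : ∀ i a c, S i c a c = 0) (Z4 : ∀ j a c, S c j a c = 0)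
    (L1 : ∀ p q r u, S q r p u = - S p q r u - S p r q u)
    (L2 : ∀ p q r u, S q u p r = S p q r u - S p u q r)
    (L3 : ∀ p q r u, S r u p q = S p r q u + S p u q r)
    (H2 : ∀ a c, S x0 x1 a c + S x0 x2 a c + S x1 x2 a c = 0)
    (H6 : ∀ a c, - S x0 x3 a c - S x0 x4 a c + S x3 x4 a c = 0)
    (H8 : ∀ a c, S x1 x3 a c - S x1 x5 a c - S x3 x5 a c = 0)
    (H10 : ∀ a c, S x0 x1 a c + S x0 x2 a c - S x0 x4 a c + S x0 x6 a c + S x1 x2 a c - S x1 x4 a c + S x1 x6 a c - S x2 x4 a c + S x2 x6 a c - S x4 x6 a c = 0)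
    (H11 : ∀ a c, S x2 x5 a c + S x2 x6 a c + S x5 x6 a c = 0)
    (H12 : ∀ a c, 2 * S x0 x1 a c - S x0 x2 a c - 2 * S x1 x2 a c = 0)
    (H13 : ∀ a c, - 2 * S x0 x3 a c + 2 * S x0 x4 a c - S x3 x4 a c = 0)
    (H14 : ∀ a c, 2 * S x1 x3 a c + S x1 x5 a c + 2 * S x3 x5 a c = 0)
    (H15 : ∀ a c, 4 * S x0 x1 a c + 4 * S x0 x2 a c - 6 * S x0 x4 a c + 2 * S x0 x6 a c + 4 * S x1 x2 a c - 6 * S x1 x4 a c + 2 * S x1 x6 a c - 6 * S x2 x4 a c + 2 * S x2 x6 a c - 3 * S x4 x6 a c = 0)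
    (H16 : ∀ a c, - S x2 x5 a c - 2 * S x2 x6 a c + 2 * S x5 x6 a c = 0)
    (H17 : ∀ a c, - S x0 x1 a c - 2 * S x0 x2 a c - 2 * S x0 x3 a c - S x0 x4 a c - S x0 x5 a c - 2 * S x0 x6 a c + 2 * S x1 x2 a c + 2 * S x1 x3 a c + S x1 x4 a c + S x1 x5 a c + 2 * S x1 x6 a c + 4 * S x2 x3 a c + 2 * S x2 x4 a c + 2 * S x2 x5 a c + 4 * S x2 x6 a c + 2 * S x3 x4 a c + 2 * S x3 x5 a c + 4 * S x3 x6 a c + S x4 x5 a c + 2 * S x4 x6 a c + 2 * S x5 x6 a c = 0) :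
      (S x0 x1 x2 x3 = 0 ∧ S x0 x2 x1 x3 = 0 ∧ S x0 x3 x1 x2 = 0) ∧
      (S x0 x1 x2 x4 = 0 ∧ S x0 x2 x1 x4 = 0 ∧ S x0 x4 x1 x2 = 0) ∧
      (S x0 x1 x2 x5 = 0 ∧ S x0 x2 x1 x5 = 0 ∧ S x0 x5 x1 x2 = 0) ∧
      (S x0 x1 x2 x6 = 0 ∧ S x0 x2 x1 x6 = 0 ∧ S x0 x6 x1 x2 = 0) ∧
      (S x0 x1 x3 x4 = 0 ∧ S x0 x3 x1 x4 = 0 ∧ S x0 x4 x1 x3 = 0) ∧
      (S x0 x1 x3 x5 = 0 ∧ S x0 x3 x1 x5 = 0 ∧ S x0 x5 x1 x3 = 0) ∧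
      (S x0 x1 x3 x6 = 0 ∧ S x0 x3 x1 x6 = 0 ∧ S x0 x6 x1 x3 = 0) ∧
      (S x0 x1 x4 x5 = 0 ∧ S x0 x4 x1 x5 = 0 ∧ S x0 x5 x1 x4 = 0) ∧
      (S x0 x1 x4 x6 = 0 ∧ S x0 x4 x1 x6 = 0 ∧ S x0 x6 x1 x4 = 0) ∧
      (S x0 x1 x5 x6 = 0 ∧ S x0 x5 x1 x6 = 0 ∧ S x0 x6 x1 x5 = 0) ∧
      (S x0 x2 x3 x4 = 0 ∧ S x0 x3 x2 x4 = 0 ∧ S x0 x4 x2 x3 = 0) ∧
      (S x0 x2 x3 x5 = 0 ∧ S x0 x3 x2 x5 = 0 ∧ S x0 x5 x2 x3 = 0) ∧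
      (S x0 x2 x3 x6 = 0 ∧ S x0 x3 x2 x6 = 0 ∧ S x0 x6 x2 x3 = 0) ∧
      (S x0 x2 x4 x5 = 0 ∧ S x0 x4 x2 x5 = 0 ∧ S x0 x5 x2 x4 = 0) ∧
      (S x0 x2 x4 x6 = 0 ∧ S x0 x4 x2 x6 = 0 ∧ S x0 x6 x2 x4 = 0) ∧
      (S x0 x2 x5 x6 = 0 ∧ S x0 x5 x2 x6 = 0 ∧ S x0 x6 x2 x5 = 0) ∧
      (S x0 x3 x4 x5 = 0 ∧ S x0 x4 x3 x5 = 0 ∧ S x0 x5 x3 x4 = 0) ∧
      (S x0 x3 x4 x6 = 0 ∧ S x0 x4 x3 x6 = 0 ∧ S x0 x6 x3 x4 = 0) ∧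
      (S x0 x3 x5 x6 = 0 ∧ S x0 x5 x3 x6 = 0 ∧ S x0 x6 x3 x5 = 0) ∧
      (S x0 x4 x5 x6 = 0 ∧ S x0 x5 x4 x6 = 0 ∧ S x0 x6 x4 x5 = 0) ∧
      (S x1 x2 x3 x4 = 0 ∧ S x1 x3 x2 x4 = 0 ∧ S x1 x4 x2 x3 = 0) ∧
      (S x1 x2 x3 x5 = 0 ∧ S x1 x3 x2 x5 = 0 ∧ S x1 x5 x2 x3 = 0) ∧
      (S x1 x2 x3 x6 = 0 ∧ S x1 x3 x2 x6 = 0 ∧ S x1 x6 x2 x3 = 0) ∧
      (S x1 x2 x4 x5 = 0 ∧ S x1 x4 x2 x5 = 0 ∧ S x1 x5 x2 x4 = 0) ∧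
      (S x1 x2 x4 x6 = 0 ∧ S x1 x4 x2 x6 = 0 ∧ S x1 x6 x2 x4 = 0) ∧
      (S x1 x2 x5 x6 = 0 ∧ S x1 x5 x2 x6 = 0 ∧ S x1 x6 x2 x5 = 0) ∧
      (S x1 x3 x4 x5 = 0 ∧ S x1 x4 x3 x5 = 0 ∧ S x1 x5 x3 x4 = 0) ∧
      (S x1 x3 x4 x6 = 0 ∧ S x1 x4 x3 x6 = 0 ∧ S x1 x6 x3 x4 = 0) ∧
      (S x1 x3 x5 x6 = 0 ∧ S x1 x5 x3 x6 = 0 ∧ S x1 x6 x3 x5 = 0) ∧
      (S x1 x4 x5 x6 = 0 ∧ S x1 x5 x4 x6 = 0 ∧ S x1 x6 x4 x5 = 0) ∧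
      (S x2 x3 x4 x5 = 0 ∧ S x2 x4 x3 x5 = 0 ∧ S x2 x5 x3 x4 = 0) ∧
      (S x2 x3 x4 x6 = 0 ∧ S x2 x4 x3 x6 = 0 ∧ S x2 x6 x3 x4 = 0) ∧
      (S x2 x3 x5 x6 = 0 ∧ S x2 x5 x3 x6 = 0 ∧ S x2 x6 x3 x5 = 0) ∧
      (S x2 x4 x5 x6 = 0 ∧ S x2 x5 x4 x6 = 0 ∧ S x2 x6 x4 x5 = 0) ∧
      (S x3 x4 x5 x6 = 0 ∧ S x3 x5 x4 x6 = 0 ∧ S x3 x6 x4 x5 = 0) := by
  have R0 : S x0 x2 x1 x3 = 0 := by
    linear_combination H2 x1 x3 - Z1 x0 x1 x3 - Z2 x2 x1 x3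
  have R1 : S x0 x2 x1 x4 = 0 := by
    linear_combination H2 x1 x4 - Z1 x0 x1 x4 - Z2 x2 x1 x4
  have R2 : S x0 x2 x1 x5 = 0 := by
    linear_combination H2 x1 x5 - Z1 x0 x1 x5 - Z2 x2 x1 x5
  have R3 : S x0 x2 x1 x6 = 0 := by
    linear_combination H2 x1 x6 - Z1 x0 x1 x6 - Z2 x2 x1 x6
  have R4 : S x0 x1 x2 x3 = 0 := by
    linear_combination H2 x2 x3 - Z1 x0 x2 x3 - Z1 x1 x2 x3
  have R5 : S x0 x1 x2 x4 = 0 := by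
    linear_combination H2 x2 x4 - Z1 x0 x2 x4 - Z1 x1 x2 x4
  have R6 : S x0 x1 x2 x5 = 0 := by
    linear_combination H2 x2 x5 - Z1 x0 x2 x5 - Z1 x1 x2 x5
  have R7 : S x0 x1 x2 x6 = 0 := by
    linear_combination H2 x2 x6 - Z1 x0 x2 x6 - Z1 x1 x2 x6
  have R8 : - S x0 x4 x1 x3 = 0 := by
    linear_combination H6 x1 x3 + Z3 x0 x1 x3 - Z4 x4 x1 x3
  have R9 : - S x0 x3 x1 x4 = 0 := by
    linear_combination H6 x1 x4 + Z3 x0 x1 x4 - Z3 x3 x1 x4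
  have R10 : - S x0 x4 x2 x3 = 0 := by
    linear_combination H6 x2 x3 + Z3 x0 x2 x3 - Z4 x4 x2 x3
  have R11 : - S x0 x3 x2 x4 = 0 := by
    linear_combination H6 x2 x4 + Z3 x0 x2 x4 - Z3 x3 x2 x4
  have R12 : - S x0 x4 x3 x5 = 0 := by
    linear_combination H6 x3 x5 + Z1 x0 x3 x5 - Z2 x4 x3 x5
  have R13 : - S x0 x4 x3 x6 = 0 := by
    linear_combination H6 x3 x6 + Z1 x0 x3 x6 - Z2 x4 x3 x6
  have R14 : - S x0 x3 x4 x5 = 0 := by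
    linear_combination H6 x4 x5 + Z1 x0 x4 x5 - Z1 x3 x4 x5
  have R15 : - S x0 x3 x4 x6 = 0 := by
    linear_combination H6 x4 x6 + Z1 x0 x4 x6 - Z1 x3 x4 x6
  have R16 : - S x1 x5 x2 x3 = 0 := by
    linear_combination H8 x2 x3 - Z3 x1 x2 x3 + Z4 x5 x2 x3
  have R17 : S x1 x3 x2 x5 = 0 := by
    linear_combination H8 x2 x5 + Z3 x1 x2 x5 + Z3 x3 x2 x5
  have R18 : - S x1 x5 x3 x4 = 0 := by
    linear_combination H8 x3 x4 - Z1 x1 x3 x4 + Z2 x5 x3 x4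
  have R19 : - S x1 x5 x3 x6 = 0 := by
    linear_combination H8 x3 x6 - Z1 x1 x3 x6 + Z2 x5 x3 x6
  have R20 : S x1 x3 x4 x5 = 0 := by
    linear_combination H8 x4 x5 + Z3 x1 x4 x5 + Z3 x3 x4 x5
  have R21 : S x1 x3 x5 x6 = 0 := by
    linear_combination H8 x5 x6 + Z1 x1 x5 x6 + Z1 x3 x5 x6
  have R22 : S x2 x6 x3 x5 = 0 := by
    linear_combination H11 x3 x5 - Z3 x2 x3 x5 - Z4 x6 x3 x5
  have R23 : S x2 x5 x3 x6 = 0 := by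
    linear_combination H11 x3 x6 - Z3 x2 x3 x6 - Z3 x5 x3 x6
  have R24 : S x2 x6 x4 x5 = 0 := by
    linear_combination H11 x4 x5 - Z3 x2 x4 x5 - Z4 x6 x4 x5
  have R25 : S x2 x5 x4 x6 = 0 := by
    linear_combination H11 x4 x6 - Z3 x2 x4 x6 - Z3 x5 x4 x6
  have R26 : - S x0 x3 x1 x5 - S x0 x5 x1 x3 = 0 := by
    linear_combination H8 x0 x1 - Z4 x3 x0 x1 + Z4 x5 x0 x1 + L3 x0 x1 x3 x5
  have R27 : - S x0 x1 x3 x5 - S x0 x3 x1 x5 = 0 := by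
    linear_combination H8 x0 x5 - L1 x0 x1 x3 x5 + Z3 x1 x0 x5 + Z3 x3 x0 x5
  have R28 : S x0 x5 x2 x6 + S x0 x6 x2 x5 = 0 := by
    linear_combination H11 x0 x2 - Z4 x5 x0 x2 - Z4 x6 x0 x2 - L3 x0 x2 x5 x6
  have R29 : S x0 x2 x5 x6 - S x0 x6 x2 x5 = 0 := by
    linear_combination H11 x0 x5 - Z3 x2 x0 x5 - L2 x0 x2 x5 x6 - Z4 x6 x0 x5
  have R30 : S x1 x5 x2 x6 + S x1 x6 x2 x5 = 0 := by
    linear_combination H11 x1 x2 - Z4 x5 x1 x2 - Z4 x6 x1 x2 - L3 x1 x2 x5 x6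
  have R31 : S x1 x2 x5 x6 - S x1 x6 x2 x5 = 0 := by
    linear_combination H11 x1 x5 - Z3 x2 x1 x5 - L2 x1 x2 x5 x6 - Z4 x6 x1 x5
  have R32 : S x0 x6 x2 x4 + S x1 x6 x2 x4 = 0 := by
    linear_combination H10 x2 x4 - Z1 x0 x2 x4 + Z3 x0 x2 x4 - Z1 x1 x2 x4 + Z3 x1 x2 x4 + Z2 x4 x2 x4 - Z2 x6 x2 x4 + Z4 x6 x2 x4 - R5
  have R33 : - S x0 x4 x2 x6 - S x1 x4 x2 x6 = 0 := by
    linear_combination H10 x2 x6 - Z1 x0 x2 x6 - Z3 x0 x2 x6 - Z1 x1 x2 x6 - Z3 x1 x2 x6 + Z2 x4 x2 x6 - Z2 x6 x2 x6 + Z3 x4 x2 x6 - R7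
  have R34 : S x0 x1 x3 x4 + S x0 x2 x3 x4 + S x1 x2 x3 x4 = 0 := by
    linear_combination H2 x3 x4
  have R35 : 3 * S x0 x1 x3 x4 - S x1 x2 x3 x4 = 0 := by
    linear_combination H12 x3 x4 + R34
  have R36 : S x0 x1 x3 x5 + S x0 x2 x3 x5 + S x1 x2 x3 x5 = 0 := by
    linear_combination H2 x3 x5
  have R37 : - 3 * S x0 x2 x3 x5 - 4 * S x1 x2 x3 x5 = 0 := by
    linear_combination H12 x3 x5 - 2 * R36
  have R38 : S x0 x1 x3 x6 + S x0 x2 x3 x6 + S x1 x2 x3 x6 = 0 := by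
    linear_combination H2 x3 x6
  have R39 : - 3 * S x0 x2 x3 x6 - 4 * S x1 x2 x3 x6 = 0 := by
    linear_combination H12 x3 x6 - 2 * R38
  have R40 : - S x1 x4 x3 x6 - S x2 x4 x3 x6 = 0 := by
    linear_combination H10 x3 x6 - Z3 x0 x3 x6 - Z3 x1 x3 x6 - Z3 x2 x3 x6 + Z3 x4 x3 x6 - R13 - R38
  have R41 : S x0 x1 x4 x5 + S x0 x2 x4 x5 + S x1 x2 x4 x5 = 0 := by
    linear_combination H2 x4 x5
  have R42 : - 3 * S x0 x2 x4 x5 - 4 * S x1 x2 x4 x5 = 0 := by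
    linear_combination H12 x4 x5 - 2 * R41
  have R43 : S x0 x6 x4 x5 + S x1 x6 x4 x5 = 0 := by
    linear_combination H10 x4 x5 + Z1 x0 x4 x5 + Z1 x1 x4 x5 + Z1 x2 x4 x5 + Z2 x6 x4 x5 - R24 - R41
  have R44 : S x0 x1 x4 x6 + S x0 x2 x4 x6 + S x1 x2 x4 x6 = 0 := by
    linear_combination H2 x4 x6
  have R45 : - 3 * S x0 x2 x4 x6 - 4 * S x1 x2 x4 x6 = 0 := by
    linear_combination H12 x4 x6 - 2 * R44
  have R46 : - S x0 x3 x5 x6 - S x0 x4 x5 x6 + S x3 x4 x5 x6 = 0 := by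
    linear_combination H6 x5 x6
  have R47 : 4 * S x0 x4 x5 x6 - 3 * S x3 x4 x5 x6 = 0 := by
    linear_combination H13 x5 x6 - 2 * R46
  have R48 : S x1 x3 x4 x6 - S x1 x5 x4 x6 - S x3 x5 x4 x6 = 0 := by
    linear_combination H8 x4 x6
  have R49 : 3 * S x1 x5 x4 x6 + 4 * S x3 x5 x4 x6 = 0 := by
    linear_combination H14 x4 x6 - 2 * R48
  have R50 : S x0 x1 x5 x6 + S x0 x2 x5 x6 + S x1 x6 x2 x5 = 0 := by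
    linear_combination H2 x5 x6 - R31
  have R51 : 3 * S x0 x1 x5 x6 - S x1 x6 x2 x5 = 0 := by
    linear_combination H12 x5 x6 + 2 * R31 + R50
  have R52 : S x1 x2 x4 x6 + S x0 x6 x1 x4 - S x1 x6 x2 x4 = 0 := by
    linear_combination H10 x1 x4 - Z1 x0 x1 x4 + Z3 x0 x1 x4 - Z2 x2 x1 x4 + Z2 x4 x1 x4 - Z2 x6 x1 x4 + Z3 x2 x1 x4 - L2 x1 x2 x4 x6 + Z4 x6 x1 x4 - R1
  have R53 : S x0 x6 x3 x4 + S x1 x6 x3 x4 + S x2 x6 x3 x4 = 0 := by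
    linear_combination H10 x3 x4 + Z3 x0 x3 x4 + Z3 x1 x3 x4 + Z3 x2 x3 x4 + Z4 x6 x3 x4 - R34
  have R54 : S x1 x2 x4 x6 - S x0 x4 x1 x6 - S x0 x4 x2 x6 = 0 := by
    linear_combination H10 x1 x6 - Z1 x0 x1 x6 - Z3 x0 x1 x6 - Z2 x2 x1 x6 + Z2 x4 x1 x6 - Z2 x6 x1 x6 + L1 x1 x2 x4 x6 - Z3 x2 x1 x6 + Z3 x4 x1 x6 - R3 + R33
  have R55 : - S x0 x4 x5 x6 - S x1 x4 x5 x6 - S x2 x4 x5 x6 = 0 := by
    linear_combination H10 x5 x6 - Z3 x0 x5 x6 - Z3 x1 x5 x6 - Z3 x2 x5 x6 + Z3 x4 x5 x6 - R31 - R50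
  have R56 : 3 * S x0 x1 x5 x6 + S x2 x3 x5 x6 + S x1 x3 x2 x6 = 0 := by
    linear_combination H8 x2 x6 + L1 x2 x3 x5 x6 - R23 + R30 + R51
  have R57 : 3 * S x0 x1 x5 x6 + 4 * S x1 x3 x2 x6 = 0 := by
    linear_combination H14 x2 x6 - 2 * L1 x2 x3 x5 x6 + 2 * R23 - R30 - R51 + 2 * R56
  have R58 : 4 * S x0 x1 x5 x6 + S x2 x4 x5 x6 = 0 := by
    linear_combination H17 x5 x6 + Z1 x0 x5 x6 + 2 * Z3 x0 x5 x6 - Z1 x1 x5 x6 - 2 * Z3 x1 x5 x6 - 2 * Z1 x2 x5 x6 - 4 * Z3 x2 x5 x6 - 2 * Z1 x3 x5 x6 - 4 * Z3 x3 x5 x6 - Z1 x4 x5 x6 - 2 * Z3 x4 x5 x6 - 2 * Z2 x6 x5 x6 - 2 * R21 - 2 * R31 - 2 * R46 + 2 * R50 + 4 * R51 + R55 - 4 * R56 + R57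
  have R59 : - (1/4) * S x0 x2 x3 x5 - S x0 x4 x1 x5 - S x1 x4 x3 x5 = 0 := by
    linear_combination H6 x1 x5 - L1 x1 x3 x4 x5 + R20 - R27 - R36 - (1/4) * R37
  have R60 : - (3/4) * S x0 x2 x3 x5 + S x0 x4 x1 x5 = 0 := by
    linear_combination H13 x1 x5 + L1 x1 x3 x4 x5 - R20 - 2 * R27 - 2 * R36 - (1/2) * R37 + R59
  have R61 : 3 * S x0 x1 x5 x6 - S x0 x4 x2 x5 - S x1 x4 x2 x5 = 0 := by
    linear_combination H10 x2 x5 - Z1 x0 x2 x5 - Z1 x1 x2 x5 + Z2 x4 x2 x5 - Z2 x6 x2 x5 + L2 x2 x4 x5 x6 - R6 - R24 + R29 - R50 + R58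
  have R62 : - 8 * S x0 x1 x5 x6 = 0 := by
    linear_combination H15 x2 x5 - 4 * Z1 x0 x2 x5 - 4 * Z1 x1 x2 x5 + 6 * Z2 x4 x2 x5 - 2 * Z2 x6 x2 x5 + 3 * L2 x2 x4 x5 x6 - 4 * R6 - 3 * R24 + 2 * R29 - 2 * R50 + 3 * R58 - 6 * R61
  have R63 : (13/3) * S x1 x2 x4 x6 + 4 * S x2 x3 x4 x6 - S x0 x5 x4 x6 = 0 := by
    linear_combination H17 x4 x6 + Z1 x0 x4 x6 + 2 * Z3 x0 x4 x6 - Z1 x1 x4 x6 - 2 * Z3 x1 x4 x6 - 2 * Z1 x2 x4 x6 - 4 * Z3 x2 x4 x6 - 2 * Z1 x3 x4 x6 - 4 * Z3 x3 x4 x6 - Z2 x5 x4 x6 - 2 * Z2 x6 x4 x6 - 2 * Z3 x5 x4 x6 - 2 * R15 - 2 * R25 + R44 - (1/3) * R45 - 2 * R48 - R49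
  have R64 : S x1 x3 x2 x4 - S x0 x3 x1 x2 - S x0 x4 x1 x2 + S x1 x4 x2 x3 = 0 := by
    linear_combination H6 x1 x2 - L3 x1 x2 x3 x4
  have R65 : - 3 * S x0 x3 x1 x2 + S x0 x4 x1 x2 = 0 := by
    linear_combination H13 x1 x2 + L3 x1 x2 x3 x4 + R64
  have R66 : - S x2 x3 x4 x5 - S x0 x3 x2 x5 - S x0 x4 x2 x5 - S x2 x4 x3 x5 = 0 := by
    linear_combination H6 x2 x5 - L1 x2 x3 x4 x5
  have R67 : - 3 * S x0 x3 x2 x5 + S x0 x4 x2 x5 = 0 := by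
    linear_combination H13 x2 x5 + L1 x2 x3 x4 x5 + R66
  have R68 : S x3 x5 x4 x6 + S x2 x5 x3 x4 + S x2 x6 x3 x4 + S x3 x6 x4 x5 = 0 := by
    linear_combination H11 x3 x4 - L3 x3 x4 x5 x6
  have R69 : 3 * S x3 x5 x4 x6 - S x2 x6 x3 x4 + 3 * S x3 x6 x4 x5 = 0 := by
    linear_combination H16 x3 x4 - 2 * L3 x3 x4 x5 x6 + R68
  have R70 : S x0 x4 x2 x6 - S x0 x4 x1 x2 + S x0 x6 x1 x2 - S x1 x6 x2 x4 = 0 := by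
    linear_combination H10 x1 x2 - Z1 x0 x1 x2 - Z3 x0 x1 x2 - Z2 x2 x1 x2 + Z2 x4 x1 x2 - Z2 x6 x1 x2 + Z4 x4 x1 x2 - Z4 x6 x1 x2 + L3 x1 x2 x4 x6 - R33
  have R71 : S x0 x4 x2 x6 - 4 * S x0 x4 x1 x2 - S x1 x6 x2 x4 = 0 := by
    linear_combination H15 x1 x2 - 4 * Z1 x0 x1 x2 - 4 * Z3 x0 x1 x2 - 4 * Z2 x2 x1 x2 + 6 * Z2 x4 x1 x2 - 2 * Z2 x6 x1 x2 + 6 * Z4 x4 x1 x2 - 2 * Z4 x6 x1 x2 + 3 * L3 x1 x2 x4 x6 - 3 * R33 - 2 * R70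
  have R72 : - (1/3) * S x0 x4 x2 x5 - (1/3) * S x0 x4 x1 x2 + S x0 x5 x1 x2 - S x0 x5 x2 x3 = 0 := by
    linear_combination H8 x0 x2 - L2 x0 x1 x2 x3 + L2 x0 x1 x2 x5 + L3 x0 x2 x3 x5 - R4 + R6 - (1/3) * R65 - (1/3) * R67
  have R73 : (1/3) * S x0 x4 x2 x5 - S x0 x4 x1 x2 + S x0 x5 x2 x3 = 0 := by
    linear_combination H14 x0 x2 - 2 * L2 x0 x1 x2 x3 - L2 x0 x1 x2 x5 - 2 * L3 x0 x2 x3 x5 - 2 * R4 - R6 - (2/3) * R65 + (2/3) * R67 + R72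
  have R74 : S x0 x5 x1 x6 - (5/3) * S x0 x4 x1 x2 + S x0 x6 x1 x5 = 0 := by
    linear_combination H11 x0 x1 - L3 x0 x1 x2 x5 - L3 x0 x1 x2 x6 - L3 x0 x1 x5 x6 - R2 - R3 - R70 + R71 - R72 - R73
  have R75 : 8 * S x0 x4 x1 x2 = 0 := by
    linear_combination H16 x0 x1 + L3 x0 x1 x2 x5 + 2 * L3 x0 x1 x2 x6 - 2 * L3 x0 x1 x5 x6 + R2 + 2 * R3 + 2 * R70 - 2 * R71 + R72 + R73 - 2 * R74
  have R76 : - S x0 x4 x2 x5 + 4 * S x1 x6 x2 x3 + S x1 x5 x2 x4 = 0 := by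
    linear_combination H17 x1 x2 + Z1 x0 x1 x2 + 2 * Z3 x0 x1 x2 - 2 * Z2 x2 x1 x2 - 2 * Z2 x3 x1 x2 - Z2 x4 x1 x2 - Z2 x5 x1 x2 - 2 * Z2 x6 x1 x2 - 4 * Z4 x3 x1 x2 - 2 * Z4 x4 x1 x2 - 2 * Z4 x5 x1 x2 - 4 * Z4 x6 x1 x2 - 2 * L3 x1 x2 x3 x4 - 2 * L3 x1 x2 x3 x5 - 4 * L3 x1 x2 x3 x6 - L3 x1 x2 x4 x5 - 2 * L3 x1 x2 x4 x6 - 2 * L3 x1 x2 x5 x6 + 2 * R16 - 2 * R17 - 2 * R30 + 2 * R33 - R57 + R61 - 2 * R64 + 2 * R70 + R72 + R73 + (7/24) * R75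
  have R77 : S x1 x2 x3 x6 - S x0 x4 x1 x5 - S x1 x6 x2 x3 + S x1 x6 x3 x5 = 0 := by
    linear_combination H11 x1 x3 - L2 x1 x2 x3 x5 - L2 x1 x2 x3 x6 - L3 x1 x3 x5 x6 - R16 + R19 + (1/4) * R37 - R60
  have R78 : - 4 * S x1 x2 x3 x6 + 3 * S x0 x4 x1 x5 + 4 * S x1 x6 x2 x3 = 0 := by
    linear_combination H16 x1 x3 + L2 x1 x2 x3 x5 + 2 * L2 x1 x2 x3 x6 - 2 * L3 x1 x3 x5 x6 + R16 + 2 * R19 - (1/4) * R37 + R60 - 2 * R77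
  have R79 : - (1/3) * S x1 x2 x3 x4 - (1/3) * S x1 x2 x4 x5 + S x0 x5 x1 x4 + S x0 x5 x3 x4 = 0 := by
    linear_combination H8 x0 x4 - L1 x0 x1 x3 x4 + L2 x0 x1 x4 x5 + L2 x0 x3 x4 x5 - R9 - R14 + (1/3) * R35 + R41 + (1/3) * R42
  have R80 : - S x1 x2 x3 x4 - S x0 x5 x3 x4 = 0 := by
    linear_combination H14 x0 x4 - 2 * L1 x0 x1 x3 x4 - L2 x0 x1 x4 x5 - 2 * L2 x0 x3 x4 x5 - 2 * R9 + 2 * R14 + (2/3) * R35 - R41 - (1/3) * R42 + R79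
  have R81 : (16/3) * S x1 x2 x3 x4 + 4 * S x1 x6 x3 x4 + 4 * S x2 x6 x3 x4 = 0 := by
    linear_combination H17 x3 x4 + 2 * Z1 x0 x3 x4 + Z3 x0 x3 x4 - 2 * Z1 x1 x3 x4 - Z3 x1 x3 x4 - 4 * Z1 x2 x3 x4 - 2 * Z3 x2 x3 x4 - 2 * Z2 x4 x3 x4 - 2 * Z2 x5 x3 x4 - 4 * Z2 x6 x3 x4 - Z4 x5 x3 x4 - 2 * Z4 x6 x3 x4 - 2 * L3 x3 x4 x5 x6 + R18 + 2 * R34 - (1/3) * R35 + 2 * R53 - 2 * R68 - R80
  have R82 : - (1/3) * S x1 x2 x3 x4 - S x1 x2 x3 x6 - S x0 x6 x1 x3 - S x0 x6 x2 x3 = 0 := by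
    linear_combination H10 x0 x3 - Z2 x1 x0 x3 - Z2 x2 x0 x3 + Z2 x4 x0 x3 - Z2 x6 x0 x3 - L1 x0 x1 x2 x3 + L2 x0 x1 x3 x4 - L2 x0 x1 x3 x6 + L2 x0 x2 x3 x4 - L2 x0 x2 x3 x6 + L3 x0 x3 x4 x6 + R0 + R4 + R8 + R10 - R13 + R34 - R38 + R53 - (1/4) * R81
  have R83 : - 8 * S x1 x2 x3 x6 - 8 * S x0 x6 x1 x3 - 8 * S x0 x6 x2 x3 = 0 := by
    linear_combination H15 x0 x3 - 4 * Z2 x1 x0 x3 - 4 * Z2 x2 x0 x3 + 6 * Z2 x4 x0 x3 - 2 * Z2 x6 x0 x3 - 4 * L1 x0 x1 x2 x3 + 6 * L2 x0 x1 x3 x4 - 2 * L2 x0 x1 x3 x6 + 6 * L2 x0 x2 x3 x4 - 2 * L2 x0 x2 x3 x6 + 3 * L3 x0 x3 x4 x6 + 4 * R0 + 4 * R4 + 6 * R8 + 6 * R10 - 3 * R13 + 6 * R34 - 2 * R38 + 3 * R53 - (3/4) * R81 + 6 * R82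
  have R84 : 4 * S x0 x3 x2 x6 + S x0 x4 x2 x5 + 4 * S x0 x6 x2 x3 + S x0 x5 x2 x4 = 0 := by
    linear_combination H17 x0 x2 + Z2 x1 x0 x2 + 2 * Z2 x2 x0 x2 + 2 * Z2 x3 x0 x2 + Z2 x4 x0 x2 + Z2 x5 x0 x2 + 2 * Z2 x6 x0 x2 - 2 * Z3 x1 x0 x2 - 2 * L2 x0 x1 x2 x3 - L2 x0 x1 x2 x4 - L2 x0 x1 x2 x5 - 2 * L2 x0 x1 x2 x6 - 4 * Z4 x3 x0 x2 - 2 * Z4 x4 x0 x2 - 2 * Z4 x5 x0 x2 - 4 * Z4 x6 x0 x2 - 2 * L3 x0 x2 x3 x4 - 2 * L3 x0 x2 x3 x5 - 4 * L3 x0 x2 x3 x6 - L3 x0 x2 x4 x5 - 2 * L3 x0 x2 x4 x6 - 2 * L3 x0 x2 x5 x6 - 2 * R4 - R5 - R6 - 2 * R7 + 2 * R10 + 2 * R11 - 2 * R28 - 2 * R32 - (2/3) * R65 + (2/3) * R67 + 2 * R70 - 4 * R71 + R72 - R73 - (13/8) * R75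
  have R85 : - S x2 x4 x3 x6 + S x0 x6 x2 x3 - S x1 x4 x2 x3 + S x1 x6 x2 x3 - S x2 x6 x3 x4 = 0 := by
    linear_combination H10 x2 x3 - Z1 x0 x2 x3 - Z1 x1 x2 x3 + Z2 x4 x2 x3 - Z2 x6 x2 x3 + L3 x2 x3 x4 x6 - R4 - R10
  have R86 : (8/3) * S x1 x2 x3 x6 - (8/3) * S x1 x6 x2 x3 = 0 := by
    linear_combination H17 x1 x3 + Z1 x0 x1 x3 + 2 * Z3 x0 x1 x3 - 2 * Z2 x2 x1 x3 - 2 * Z2 x3 x1 x3 - Z2 x4 x1 x3 - Z2 x5 x1 x3 - 2 * Z2 x6 x1 x3 - 4 * Z3 x2 x1 x3 - 2 * L2 x1 x2 x3 x4 - 2 * L2 x1 x2 x3 x5 - 4 * L2 x1 x2 x3 x6 - 2 * Z4 x4 x1 x3 - 2 * Z4 x5 x1 x3 - 4 * Z4 x6 x1 x3 - L3 x1 x3 x4 x5 - 2 * L3 x1 x3 x4 x6 - 2 * L3 x1 x3 x5 x6 + 2 * R0 - R8 - 2 * R16 + R18 + 2 * R19 - R26 + R27 + R36 + (3/4) * R37 + 2 * R40 + R59 - 2 * R60 - 2 * R77 + (1/3) * R78 - (1/2) * R81 - 2 * R82 - 2 * R85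
  have R87 : 3 * S x2 x4 x3 x6 - 4 * S x0 x6 x2 x3 - 4 * S x1 x6 x2 x3 + 3 * S x2 x6 x3 x4 = 0 := by
    linear_combination H15 x2 x3 - 4 * Z1 x0 x2 x3 - 4 * Z1 x1 x2 x3 + 6 * Z2 x4 x2 x3 - 2 * Z2 x6 x2 x3 + 3 * L3 x2 x3 x4 x6 - 4 * R4 - 6 * R10 - 6 * R85
  have R88 : (1/3) * S x1 x2 x4 x5 + 4 * S x0 x3 x1 x6 - 4 * S x0 x6 x2 x3 - 4 * S x1 x6 x2 x3 = 0 := by
    linear_combination H17 x0 x1 + Z2 x1 x0 x1 + 2 * Z2 x2 x0 x1 + 2 * Z2 x3 x0 x1 + Z2 x4 x0 x1 + Z2 x5 x0 x1 + 2 * Z2 x6 x0 x1 - 2 * Z4 x2 x0 x1 - 2 * Z4 x3 x0 x1 - Z4 x4 x0 x1 - Z4 x5 x0 x1 - 2 * Z4 x6 x0 x1 - 4 * L3 x0 x1 x2 x3 - 2 * L3 x0 x1 x2 x4 - 2 * L3 x0 x1 x2 x5 - 4 * L3 x0 x1 x2 x6 - 2 * L3 x0 x1 x3 x4 - 2 * L3 x0 x1 x3 x5 - 4 * L3 x0 x1 x3 x6 - L3 x0 x1 x4 x5 - 2 * L3 x0 x1 x4 x6 - 2 * L3 x0 x1 x5 x6 - 4 * R0 - 2 * R1 - 2 * R2 - 4 *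 R3 + 2 * R8 + 2 * R9 + 2 * R26 - 2 * R52 + 2 * R54 + (4/3) * R65 - 4 * R70 + 6 * R71 - 2 * R72 - 2 * R73 - 2 * R74 + (4/3) * R75 - (1/3) * R78 - R79 - R80 + 4 * R82 + R86
  have R89 : (1/3) * S x0 x4 x2 x5 + S x0 x5 x3 x6 - S x0 x6 x2 x3 + S x0 x6 x3 x5 - (4/3) * S x1 x6 x2 x3 = 0 := by
    linear_combination H11 x0 x3 - L2 x0 x2 x3 x5 - L2 x0 x2 x3 x6 - L3 x0 x3 x5 x6 + (1/3) * R39 + (4/3) * R60 + R73 + (1/8) * R75 - (4/9) * R78 - (1/6) * R86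
  have R90 : - S x0 x4 x2 x5 + 4 * S x0 x6 x2 x3 + (16/3) * S x1 x6 x2 x3 = 0 := by
    linear_combination H16 x0 x3 + L2 x0 x2 x3 x5 + 2 * L2 x0 x2 x3 x6 - 2 * L3 x0 x3 x5 x6 - (2/3) * R39 - (4/3) * R60 - R73 - (1/8) * R75 + (4/9) * R78 - (1/3) * R86 - 2 * R89
  have R91 : (13/16) * S x0 x4 x2 x5 + S x2 x4 x3 x5 + (4/3) * S x2 x4 x3 x6 - (121/36) * S x0 x6 x2 x3 = 0 := by
    linear_combination H8 x2 x4 + L2 x2 x3 x4 x5 - R64 + (1/3) * R65 - R66 + (1/3) * R67 - R68 + (1/3) * R69 - (1/6) * R75 + R76 - R85 + (1/9) * R87 - (23/48) * R90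
  have R92 : - (8/3) * S x0 x6 x2 x3 = 0 := by
    linear_combination H14 x2 x4 - 2 * L2 x2 x3 x4 x5 - 2 * R64 + (2/3) * R65 + 2 * R66 - (2/3) * R67 + 2 * R68 - (2/3) * R69 - (1/3) * R75 - R76 - 2 * R85 - (14/9) * R87 - (1/24) * R90 + 2 * R91
  have R93 : - S x0 x4 x5 x6 - S x1 x2 x4 x5 + S x0 x4 x2 x5 - S x0 x6 x1 x5 - S x1 x6 x4 x5 = 0 := by
    linear_combination H10 x0 x5 - Z2 x1 x0 x5 - Z2 x2 x0 x5 + Z2 x4 x0 x5 - Z2 x6 x0 x5 - L1 x0 x1 x2 x5 + L1 x0 x1 x4 x5 - L2 x0 x1 x5 x6 + L1 x0 x2 x4 x5 - L2 x0 x2 x5 x6 + L2 x0 x4 x5 x6 + R2 + R6 - R29 - R41 - R43 + (1/8) * R62 - (1/3) * R78 - (1/2) * R86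
  have R94 : - S x0 x4 x5 x6 - 4 * S x1 x2 x4 x5 + 4 * S x0 x4 x2 x5 - S x1 x6 x4 x5 = 0 := by
    linear_combination H15 x0 x5 - 4 * Z2 x1 x0 x5 - 4 * Z2 x2 x0 x5 + 6 * Z2 x4 x0 x5 - 2 * Z2 x6 x0 x5 - 4 * L1 x0 x1 x2 x5 + 6 * L1 x0 x1 x4 x5 - 2 * L2 x0 x1 x5 x6 + 6 * L1 x0 x2 x4 x5 - 2 * L2 x0 x2 x5 x6 + 3 * L2 x0 x4 x5 x6 + 4 * R2 + 4 * R6 - 2 * R29 - 6 * R41 - 3 * R43 + (1/4) * R62 - 2 * R78 - 3 * R86 - 2 * R93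
  have R95 : - (17/4) * S x1 x2 x4 x5 + 4 * S x0 x4 x2 x5 - S x0 x6 x3 x5 - (1/3) * S x1 x6 x4 x5 = 0 := by
    linear_combination H8 x0 x6 - L1 x0 x1 x3 x6 + L1 x0 x1 x5 x6 + L1 x0 x3 x5 x6 + R38 + (1/3) * R39 + R46 + (1/3) * R47 + (1/8) * R62 - R74 - (5/24) * R75 + (1/8) * R86 + (1/4) * R88 - R89 - R93 + (4/3) * R94
  have R96 : - (8/3) * S x1 x2 x4 x5 + 2 * S x0 x4 x2 x5 = 0 := by
    linear_combination H14 x0 x6 - 2 * L1 x0 x1 x3 x6 - L1 x0 x1 x5 x6 - 2 * L1 x0 x3 x5 x6 + 2 * R38 + (2/3) * R39 - 2 * R46 - (2/3) * R47 - (1/8) * R62 + R74 + (5/24) * R75 + (1/4) * R86 + (1/2) * R88 + 2 * R89 + R90 + R93 - (5/3) * R94 + 2 * R95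
  have R97 : (3/8) * S x0 x4 x2 x5 + S x2 x4 x3 x6 - S x3 x5 x4 x6 + S x1 x6 x4 x5 = 0 := by
    linear_combination H17 x3 x6 + 2 * Z1 x0 x3 x6 + 2 * Z3 x0 x3 x6 - 2 * Z1 x1 x3 x6 - 2 * Z3 x1 x3 x6 - 4 * Z1 x2 x3 x6 - 4 * Z3 x2 x3 x6 - 2 * Z2 x4 x3 x6 - 2 * Z2 x5 x3 x6 - 4 * Z2 x6 x3 x6 - L1 x3 x4 x5 x6 - 2 * Z3 x4 x3 x6 - 2 * Z3 x5 x3 x6 - R13 + R19 - 2 * R23 + R38 - (1/3) * R39 + R40 - (1/3) * R47 - (13/8) * R86 + R89 - (9/16) * R90 - (39/32) * R92 - (4/3) * R94 + R95 + (13/32) * R96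
  have R98 : (13/8) * S x0 x4 x2 x5 + 4 * S x2 x4 x3 x6 + (1/3) * S x1 x6 x4 x5 = 0 := by
    linear_combination H15 x3 x5 + 3 * L2 x3 x4 x5 x6 - 6 * R12 - 2 * R22 - 4 * R36 - R47 - 6 * R59 + 2 * R60 - R69 - 2 * R77 - (10/3) * R78 - (17/4) * R86 - (1/3) * R87 - (1/4) * R90 + 6 * R91 - (119/16) * R92 - 4 * R94 + 2 * R95 + (45/16) * R96 - 3 * R97
  have R99 : S x1 x2 x4 x6 - (4/3) * S x2 x4 x3 x6 - S x1 x6 x2 x4 - (1/3) * S x1 x6 x4 x5 = 0 := by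
    linear_combination H11 x1 x4 - L2 x1 x2 x4 x5 - L2 x1 x2 x4 x6 - L3 x1 x4 x5 x6 - (1/3) * R49 + R76 - (3/4) * R90 - (9/8) * R92 + (3/8) * R96 - (4/3) * R97
  have R100 : - (64/39) * S x2 x4 x3 x6 - (40/39) * S x1 x6 x4 x5 = 0 := by
    linear_combination H16 x1 x4 + L2 x1 x2 x4 x5 + 2 * L2 x1 x2 x4 x6 - 2 * L3 x1 x4 x5 x6 - (2/3) * R49 - R76 + (3/4) * R90 + (9/8) * R92 - (3/8) * R96 - (8/3) * R97 + (12/13) * R98 + 2 * R99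
  have R101 : - S x1 x6 x4 x5 = 0 := by
    linear_combination H13 x1 x6 + L1 x1 x3 x4 x6 + R40 - R48 - (1/3) * R49 + 2 * R54 + 2 * R71 + R75 + (1/2) * R88 + (3/8) * R90 - (3/16) * R92 + (1/16) * R96 - (1/3) * R97 + (3/13) * R98 - 2 * R99 + (11/8) * R100
  have R102 : - (1/4) * S x0 x5 x4 x6 + (1/4) * S x0 x5 x2 x4 + (1/12) * S x1 x6 x2 x4 = 0 := by
    linear_combination H6 x2 x6 - L1 x2 x3 x4 x6 + (1/4) * R63 + R71 + (1/2) * R75 + (1/4) * R84 + (3/8) * R92 - (2/13) * R98 - (13/12) * R99 - (5/48) * R100 + (5/12) * R101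
  have R103 : (3/4) * S x0 x5 x2 x4 + S x1 x6 x2 x4 = 0 := by
    linear_combination H13 x2 x6 + L1 x2 x3 x4 x6 - (1/4) * R63 - 2 * R71 - R75 + (1/2) * R84 + (3/4) * R92 - (4/13) * R98 + (13/12) * R99 - (49/48) * R100 + (7/12) * R101 + R102
  have R104 : - (8/3) * S x1 x6 x2 x4 = 0 := by
    linear_combination H16 x0 x4 + L2 x0 x2 x4 x5 + 2 * L2 x0 x2 x4 x6 - 2 * L3 x0 x4 x5 x6 - 2 * R32 - (1/3) * R42 - 2 * R43 - (2/3) * R45 + (1/2) * R96 - (8/13) * R98 - (8/3) * R99 + (2/3) * R100 - 2 * R101 + 8 * R102 - 4 * R103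
  have z104 : S x1 x6 x2 x4 = 0 := by
    linear_combination - (3/8) * R104
  have z103 : S x0 x5 x2 x4 = 0 := by
    linear_combination (4/3) * R103 - (4/3) * z104
  have z102 : S x0 x5 x4 x6 = 0 := by
    linear_combination - 4 * R102 + (1/3) * z104 + z103
  have z101 : S x1 x6 x4 x5 = 0 := by
    linear_combination - R101
  have z100 : S x2 x4 x3 x6 = 0 := by
    linear_combination - (39/64) * R100 - (5/8) * z101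
  have z99 : S x1 x2 x4 x6 = 0 := by
    linear_combination R99 + z104 + (1/3) * z101 + (4/3) * z100
  have z98 : S x0 x4 x2 x5 = 0 := by
    linear_combination (8/13) * R98 - (32/13) * z100 - (8/39) * z101
  have z97 : S x3 x5 x4 x6 = 0 := by
    linear_combination - R97 + z100 + (3/8) * z98 + z101
  have z96 : S x1 x2 x4 x5 = 0 := by
    linear_combination - (3/8) * R96 + (3/4) * z98
  have z95 : S x0 x6 x3 x5 = 0 := by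
    linear_combination - R95 - (17/4) * z96 + 4 * z98 - (1/3) * z101
  have z94 : S x0 x4 x5 x6 = 0 := by
    linear_combination - R94 + 4 * z98 - 4 * z96 - z101
  have z93 : S x0 x6 x1 x5 = 0 := by
    linear_combination - R93 + z98 - z94 - z96 - z101
  have z92 : S x0 x6 x2 x3 = 0 := by
    linear_combination - (3/8) * R92
  have z91 : S x2 x4 x3 x5 = 0 := by
    linear_combination R91 - (13/16) * z98 + (121/36) * z92 - (4/3) * z100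
  have z90 : S x1 x6 x2 x3 = 0 := by
    linear_combination (3/16) * R90 - (3/4) * z92 + (3/16) * z98
  have z89 : S x0 x5 x3 x6 = 0 := by
    linear_combination R89 + z92 - z95 - (1/3) * z98 + (4/3) * z90
  have z88 : S x0 x3 x1 x6 = 0 := by
    linear_combination (1/4) * R88 + z90 - (1/12) * z96 + z92
  have z87 : S x2 x6 x3 x4 = 0 := by
    linear_combination (1/3) * R87 + (4/3) * z92 + (4/3) * z90 - z100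
  have z86 : S x1 x2 x3 x6 = 0 := by
    linear_combination (3/8) * R86 + z90
  have z85 : S x1 x4 x2 x3 = 0 := by
    linear_combination - R85 + z92 + z90 - z100 - z87
  have z84 : S x0 x3 x2 x6 = 0 := by
    linear_combination (1/4) * R84 - z92 - (1/4) * z98 - (1/4) * z103
  have z83 : S x0 x6 x1 x3 = 0 := by
    linear_combination - (1/8) * R83 - z92 - z86
  have z82 : S x1 x2 x3 x4 = 0 := by
    linear_combination - 3 * R82 - 3 * z83 - 3 * z92 - 3 * z86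
  have z81 : S x1 x6 x3 x4 = 0 := by
    linear_combination (1/4) * R81 - (4/3) * z82 - z87
  have z80 : S x0 x5 x3 x4 = 0 := by
    linear_combination - R80 - z82
  have z79 : S x0 x5 x1 x4 = 0 := by
    linear_combination R79 - z80 + (1/3) * z82 + (1/3) * z96
  have z78 : S x0 x4 x1 x5 = 0 := by
    linear_combination (1/3) * R78 + (4/3) * z86 - (4/3) * z90
  have z77 : S x1 x6 x3 x5 = 0 := by
    linear_combination R77 - z86 + z90 + z78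
  have z76 : S x1 x5 x2 x4 = 0 := by
    linear_combination R76 - 4 * z90 + z98
  have z75 : S x0 x4 x1 x2 = 0 := by
    linear_combination (1/8) * R75
  have z74 : S x0 x5 x1 x6 = 0 := by
    linear_combination R74 - z93 + (5/3) * z75
  have z73 : S x0 x5 x2 x3 = 0 := by
    linear_combination R73 + z75 - (1/3) * z98
  have z72 : S x0 x5 x1 x2 = 0 := by
    linear_combination R72 + z73 + (1/3) * z75 + (1/3) * z98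
  have z71 : S x0 x4 x2 x6 = 0 := by
    linear_combination R71 + 4 * z75 + z104
  have z70 : S x0 x6 x1 x2 = 0 := by
    linear_combination R70 + z75 + z104 - z71
  have z69 : S x3 x6 x4 x5 = 0 := by
    linear_combination (1/3) * R69 + (1/3) * z87 - z97
  have z68 : S x2 x5 x3 x4 = 0 := by
    linear_combination R68 - z87 - z97 - z69
  have z67 : S x0 x3 x2 x5 = 0 := by
    linear_combination - (1/3) * R67 + (1/3) * z98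
  have z66 : S x2 x3 x4 x5 = 0 := by
    linear_combination - R66 - z67 - z98 - z91
  have z65 : S x0 x3 x1 x2 = 0 := by
    linear_combination - (1/3) * R65 + (1/3) * z75
  have z64 : S x1 x3 x2 x4 = 0 := by
    linear_combination R64 + z65 + z75 - z85
  have z63 : S x2 x3 x4 x6 = 0 := by
    linear_combination (1/4) * R63 + (1/4) * z102 - (13/12) * z99
  have z62 : S x0 x1 x5 x6 = 0 := by
    linear_combination - (1/8) * R62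
  have z61 : S x1 x4 x2 x5 = 0 := by
    linear_combination - R61 - z98 + 3 * z62
  have z60 : S x0 x2 x3 x5 = 0 := by
    linear_combination - (4/3) * R60 + (4/3) * z78
  have z59 : S x1 x4 x3 x5 = 0 := by
    linear_combination - R59 - z78 - (1/4) * z60
  have z58 : S x2 x4 x5 x6 = 0 := by
    linear_combination R58 - 4 * z62
  have z57 : S x1 x3 x2 x6 = 0 := by
    linear_combination (1/4) * R57 - (3/4) * z62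
  have z56 : S x2 x3 x5 x6 = 0 := by
    linear_combination R56 - z57 - 3 * z62
  have z55 : S x1 x4 x5 x6 = 0 := by
    linear_combination - R55 - z94 - z58
  have z54 : S x0 x4 x1 x6 = 0 := by
    linear_combination - R54 + z99 - z71
  have z53 : S x0 x6 x3 x4 = 0 := by
    linear_combination R53 - z81 - z87
  have z52 : S x0 x6 x1 x4 = 0 := by
    linear_combination R52 - z99 + z104
  have z51 : S x1 x6 x2 x5 = 0 := by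
    linear_combination - R51 + 3 * z62
  have z50 : S x0 x2 x5 x6 = 0 := by
    linear_combination R50 - z62 - z51
  have z49 : S x1 x5 x4 x6 = 0 := by
    linear_combination (1/3) * R49 - (4/3) * z97
  have z48 : S x1 x3 x4 x6 = 0 := by
    linear_combination R48 + z49 + z97
  have z47 : S x3 x4 x5 x6 = 0 := by
    linear_combination - (1/3) * R47 + (4/3) * z94
  have z46 : S x0 x3 x5 x6 = 0 := by
    linear_combination - R46 - z94 + z47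
  have z45 : S x0 x2 x4 x6 = 0 := by
    linear_combination - (1/3) * R45 - (4/3) * z99
  have z44 : S x0 x1 x4 x6 = 0 := by
    linear_combination R44 - z45 - z99
  have z43 : S x0 x6 x4 x5 = 0 := by
    linear_combination R43 - z101
  have z42 : S x0 x2 x4 x5 = 0 := by
    linear_combination - (1/3) * R42 - (4/3) * z96
  have z41 : S x0 x1 x4 x5 = 0 := by
    linear_combination R41 - z42 - z96
  have z40 : S x1 x4 x3 x6 = 0 := by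
    linear_combination - R40 - z100
  have z39 : S x0 x2 x3 x6 = 0 := by
    linear_combination - (1/3) * R39 - (4/3) * z86
  have z38 : S x0 x1 x3 x6 = 0 := by
    linear_combination R38 - z39 - z86
  have z37 : S x1 x2 x3 x5 = 0 := by
    linear_combination - (1/4) * R37 - (3/4) * z60
  have z36 : S x0 x1 x3 x5 = 0 := by
    linear_combination R36 - z60 - z37
  have z35 : S x0 x1 x3 x4 = 0 := by
    linear_combination (1/3) * R35 + (1/3) * z82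
  have z34 : S x0 x2 x3 x4 = 0 := by
    linear_combination R34 - z35 - z82
  have z33 : S x1 x4 x2 x6 = 0 := by
    linear_combination - R33 - z71
  have z32 : S x0 x6 x2 x4 = 0 := by
    linear_combination R32 - z104
  have z31 : S x1 x2 x5 x6 = 0 := by
    linear_combination R31 + z51
  have z30 : S x1 x5 x2 x6 = 0 := by
    linear_combination R30 - z51
  have z29 : S x0 x6 x2 x5 = 0 := by
    linear_combination - R29 + z50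
  have z28 : S x0 x5 x2 x6 = 0 := by
    linear_combination R28 - z29
  have z27 : S x0 x3 x1 x5 = 0 := by
    linear_combination - R27 - z36
  have z26 : S x0 x5 x1 x3 = 0 := by
    linear_combination - R26 - z27
  have z19 : S x1 x5 x3 x6 = 0 := by
    linear_combination - R19
  have z18 : S x1 x5 x3 x4 = 0 := by
    linear_combination - R18
  have z16 : S x1 x5 x2 x3 = 0 := by
    linear_combination - R16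
  have z15 : S x0 x3 x4 x6 = 0 := by
    linear_combination - R15
  have z14 : S x0 x3 x4 x5 = 0 := by
    linear_combination - R14
  have z13 : S x0 x4 x3 x6 = 0 := by
    linear_combination - R13
  have z12 : S x0 x4 x3 x5 = 0 := by
    linear_combination - R12
  have z11 : S x0 x3 x2 x4 = 0 := by
    linear_combination - R11
  have z10 : S x0 x4 x2 x3 = 0 := by
    linear_combination - R10
  have z9 : S x0 x3 x1 x4 = 0 := by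
    linear_combination - R9
  have z8 : S x0 x4 x1 x3 = 0 := by
    linear_combination - R8
  exact ⟨⟨R4, R0, z65⟩,
    ⟨R5, R1, z75⟩,
    ⟨R6, R2, z72⟩,
    ⟨R7, R3, z70⟩,
    ⟨z35, z9, z8⟩,
    ⟨z36, z27, z26⟩,
    ⟨z38, z88, z83⟩,
    ⟨z41, z78, z79⟩,
    ⟨z44, z54, z52⟩,
    ⟨z62, z74, z93⟩,
    ⟨z34, z11, z10⟩,
    ⟨z60, z67, z73⟩,
    ⟨z39, z84, z92⟩,
    ⟨z42, z98, z103⟩,
    ⟨z45, z71, z32⟩,
    ⟨z50, z28, z29⟩,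
    ⟨z14, z12, z80⟩,
    ⟨z15, z13, z53⟩,
    ⟨z46, z89, z95⟩,
    ⟨z94, z102, z43⟩,
    ⟨z82, z64, z85⟩,
    ⟨z37, R17, z16⟩,
    ⟨z86, z57, z90⟩,
    ⟨z96, z61, z76⟩,
    ⟨z99, z33, z104⟩,
    ⟨z31, z30, z51⟩,
    ⟨R20, z59, z18⟩,
    ⟨z48, z40, z81⟩,
    ⟨R21, z19, z77⟩,
    ⟨z55, z49, z101⟩,
    ⟨z66, z91, z68⟩,
    ⟨z63, z100, z87⟩,
    ⟨z56, R23, R22⟩,
    ⟨z58, R25, R24⟩,
    ⟨z47, z97, z69⟩⟩

end Pool.Agent.U174.Green.Octa
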