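import Pool.Agent.U174.Green.Elim

set_option autoImplicit false

namespace Pool.Agent.U174.Green.Octa

/-- The coordinates of the 18 points. -/
def XZ : Fin 18 → Fin 7 → ℤ := ![![1, 0, 0, 0, 0, 0, 0],
  ![0, 1, 0, 0, 0, 0, 0],
  ![-1, -1, -1, 0, 0, 0, 0],
  ![0, 0, 1, 0, 0, 0, 0],
  ![0, 0, 0, 1, 0, 0, 0],
  ![0, 0, 0, 0, 1, 0, 0],
  ![1, 0, 0, -1, -1, 0, 0],
  ![0, 0, 0, 0, 0, 1, 0],
  ![0, 1, 0, 1, 0, -1, 0],
  ![0, 0, 0, 0, 0, 0, 1],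
  ![-1, -1, -1, 0, 1, 0, -1],
  ![0, 0, 1, 0, 0, 1, 1],
  ![-1, -2, 1, 0, 0, 0, 0],
  ![2, 0, 0, -1, 1, 0, 0],
  ![0, -1, 0, -2, 0, -1, 0],
  ![2, 2, 2, 0, -3, 0, 1],
  ![0, 0, -1, 0, 0, 1, 2],
  ![-1, 1, 2, 2, 1, 1, 2]]

theorem XZ0_0 : XZ 0 0 = 1 := rfl
theorem XZ0_1 : XZ 0 1 = 0 := rfl
theorem XZ0_2 : XZ 0 2 = 0 := rfl
theorem XZ0_3 : XZ 0 3 = 0 := rfl
theorem XZ0_4 : XZ 0 4 = 0 := rfl
theorem XZ0_5 : XZ 0 5 = 0 := rfl
theorem XZ0_6 : XZ 0 6 = 0 := rfl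
theorem XZ1_0 : XZ 1 0 = 0 := rfl
theorem XZ1_1 : XZ 1 1 = 1 := rfl
theorem XZ1_2 : XZ 1 2 = 0 := rfl
theorem XZ1_3 : XZ 1 3 = 0 := rfl
theorem XZ1_4 : XZ 1 4 = 0 := rfl
theorem XZ1_5 : XZ 1 5 = 0 := rfl
theorem XZ1_6 : XZ 1 6 = 0 := rfl
theorem XZ2_0 : XZ 2 0 = -1 := rfl
theorem XZ2_1 : XZ 2 1 = -1 := rfl
theorem XZ2_2 : XZ 2 2 = -1 := rfl
theorem XZ2_3 : XZ 2 3 = 0 := rfl
theorem XZ2_4 : XZ 2 4 = 0 := rfl
theorem XZ2_5 : XZ 2 5 = 0 := rfl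
theorem XZ2_6 : XZ 2 6 = 0 := rfl
theorem XZ3_0 : XZ 3 0 = 0 := rfl
theorem XZ3_1 : XZ 3 1 = 0 := rfl
theorem XZ3_2 : XZ 3 2 = 1 := rfl
theorem XZ3_3 : XZ 3 3 = 0 := rfl
theorem XZ3_4 : XZ 3 4 = 0 := rfl
theorem XZ3_5 : XZ 3 5 = 0 := rfl
theorem XZ3_6 : XZ 3 6 = 0 := rfl
theorem XZ4_0 : XZ 4 0 = 0 := rfl
theorem XZ4_1 : XZ 4 1 = 0 := rfl
theorem XZ4_2 : XZ 4 2 = 0 := rfl
theorem XZ4_3 : XZ 4 3 = 1 := rfl
theorem XZ4_4 : XZ 4 4 = 0 := rfl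
theorem XZ4_5 : XZ 4 5 = 0 := rfl
theorem XZ4_6 : XZ 4 6 = 0 := rfl
theorem XZ5_0 : XZ 5 0 = 0 := rfl
theorem XZ5_1 : XZ 5 1 = 0 := rfl
theorem XZ5_2 : XZ 5 2 = 0 := rfl
theorem XZ5_3 : XZ 5 3 = 0 := rfl
theorem XZ5_4 : XZ 5 4 = 1 := rfl
theorem XZ5_5 : XZ 5 5 = 0 := rfl
theorem XZ5_6 : XZ 5 6 = 0 := rfl
theorem XZ6_0 : XZ 6 0 = 1 := rfl
theorem XZ6_1 : XZ 6 1 = 0 := rfl
theorem XZ6_2 : XZ 6 2 = 0 := rfl
theorem XZ6_3 : XZ 6 3 = -1 := rfl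
theorem XZ6_4 : XZ 6 4 = -1 := rfl
theorem XZ6_5 : XZ 6 5 = 0 := rfl
theorem XZ6_6 : XZ 6 6 = 0 := rfl
theorem XZ7_0 : XZ 7 0 = 0 := rfl
theorem XZ7_1 : XZ 7 1 = 0 := rfl
theorem XZ7_2 : XZ 7 2 = 0 := rfl
theorem XZ7_3 : XZ 7 3 = 0 := rfl
theorem XZ7_4 : XZ 7 4 = 0 := rfl
theorem XZ7_5 : XZ 7 5 = 1 := rfl
theorem XZ7_6 : XZ 7 6 = 0 := rfl
theorem XZ8_0 : XZ 8 0 = 0 := rfl
theorem XZ8_1 : XZ 8 1 = 1 := rfl
theorem XZ8_2 : XZ 8 2 = 0 := rfl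
theorem XZ8_3 : XZ 8 3 = 1 := rfl
theorem XZ8_4 : XZ 8 4 = 0 := rfl
theorem XZ8_5 : XZ 8 5 = -1 := rfl
theorem XZ8_6 : XZ 8 6 = 0 := rfl
theorem XZ9_0 : XZ 9 0 = 0 := rfl
theorem XZ9_1 : XZ 9 1 = 0 := rfl
theorem XZ9_2 : XZ 9 2 = 0 := rfl
theorem XZ9_3 : XZ 9 3 = 0 := rfl
theorem XZ9_4 : XZ 9 4 = 0 := rfl
theorem XZ9_5 : XZ 9 5 = 0 := rfl
theorem XZ9_6 : XZ 9 6 = 1 := rfl
theorem XZ10_0 : XZ 10 0 = -1 := rfl
theorem XZ10_1 : XZ 10 1 = -1 := rfl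
theorem XZ10_2 : XZ 10 2 = -1 := rfl
theorem XZ10_3 : XZ 10 3 = 0 := rfl
theorem XZ10_4 : XZ 10 4 = 1 := rfl
theorem XZ10_5 : XZ 10 5 = 0 := rfl
theorem XZ10_6 : XZ 10 6 = -1 := rfl
theorem XZ11_0 : XZ 11 0 = 0 := rfl
theorem XZ11_1 : XZ 11 1 = 0 := rfl
theorem XZ11_2 : XZ 11 2 = 1 := rfl
theorem XZ11_3 : XZ 11 3 = 0 := rfl
theorem XZ11_4 : XZ 11 4 = 0 := rfl
theorem XZ11_5 : XZ 11 5 = 1 := rfl
theorem XZ11_6 : XZ 11 6 = 1 := rfl
theorem XZ12_0 : XZ 12 0 = -1 := rfl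
theorem XZ12_1 : XZ 12 1 = -2 := rfl
theorem XZ12_2 : XZ 12 2 = 1 := rfl
theorem XZ12_3 : XZ 12 3 = 0 := rfl
theorem XZ12_4 : XZ 12 4 = 0 := rfl
theorem XZ12_5 : XZ 12 5 = 0 := rfl
theorem XZ12_6 : XZ 12 6 = 0 := rfl
theorem XZ13_0 : XZ 13 0 = 2 := rfl
theorem XZ13_1 : XZ 13 1 = 0 := rfl
theorem XZ13_2 : XZ 13 2 = 0 := rfl
theorem XZ13_3 : XZ 13 3 = -1 := rfl
theorem XZ13_4 : XZ 13 4 = 1 := rfl
theorem XZ13_5 : XZ 13 5 = 0 := rfl
theorem XZ13_6 : XZ 13 6 = 0 := rfl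
theorem XZ14_0 : XZ 14 0 = 0 := rfl
theorem XZ14_1 : XZ 14 1 = -1 := rfl
theorem XZ14_2 : XZ 14 2 = 0 := rfl
theorem XZ14_3 : XZ 14 3 = -2 := rfl
theorem XZ14_4 : XZ 14 4 = 0 := rfl
theorem XZ14_5 : XZ 14 5 = -1 := rfl
theorem XZ14_6 : XZ 14 6 = 0 := rfl
theorem XZ15_0 : XZ 15 0 = 2 := rfl
theorem XZ15_1 : XZ 15 1 = 2 := rfl
theorem XZ15_2 : XZ 15 2 = 2 := rfl
theorem XZ15_3 : XZ 15 3 = 0 := rfl
theorem XZ15_4 : XZ 15 4 = -3 := rfl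
theorem XZ15_5 : XZ 15 5 = 0 := rfl
theorem XZ15_6 : XZ 15 6 = 1 := rfl
theorem XZ16_0 : XZ 16 0 = 0 := rfl
theorem XZ16_1 : XZ 16 1 = 0 := rfl
theorem XZ16_2 : XZ 16 2 = -1 := rfl
theorem XZ16_3 : XZ 16 3 = 0 := rfl
theorem XZ16_4 : XZ 16 4 = 0 := rfl
theorem XZ16_5 : XZ 16 5 = 1 := rfl
theorem XZ16_6 : XZ 16 6 = 2 := rfl
theorem XZ17_0 : XZ 17 0 = -1 := rfl
theorem XZ17_1 : XZ 17 1 = 1 := rfl
theorem XZ17_2 : XZ 17 2 = 2 := rfl
theorem XZ17_3 : XZ 17 3 = 2 := rfl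
theorem XZ17_4 : XZ 17 4 = 1 := rfl
theorem XZ17_5 : XZ 17 5 = 1 := rfl
theorem XZ17_6 : XZ 17 6 = 2 := rfl

/-- The increasing quadruples. -/
def quads : List (Fin 7 × Fin 7 × Fin 7 × Fin 7) :=
  [(0, 1, 2, 3),
   (0, 1, 2, 4),
   (0, 1, 2, 5),
   (0, 1, 2, 6),
   (0, 1, 3, 4),
   (0, 1, 3, 5),
   (0, 1, 3, 6),
   (0, 1, 4, 5),
   (0, 1, 4, 6),
   (0, 1, 5, 6),
   (0, 2, 3, 4),
   (0, 2, 3, 5),
   (0, 2, 3, 6),
   (0, 2, 4, 5),
   (0, 2, 4, 6),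
   (0, 2, 5, 6),
   (0, 3, 4, 5),
   (0, 3, 4, 6),
   (0, 3, 5, 6),
   (0, 4, 5, 6),
   (1, 2, 3, 4),
   (1, 2, 3, 5),
   (1, 2, 3, 6),
   (1, 2, 4, 5),
   (1, 2, 4, 6),
   (1, 2, 5, 6),
   (1, 3, 4, 5),
   (1, 3, 4, 6),
   (1, 3, 5, 6),
   (1, 4, 5, 6),
   (2, 3, 4, 5),
   (2, 3, 4, 6),
   (2, 3, 5, 6),
   (2, 4, 5, 6),
   (3, 4, 5, 6)]

theorem quads_mem : ∀ p q r u : Fin 7, p < q → q < r → r < u → (p, q, r, u) ∈ quads := by
  decide +kernel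

theorem elim {k : Type} [Field k] [CharZero k] (G : Fin 7 → Fin 7 → Fin 7 → Fin 7 → k)
    (h1 : ∀ i j a c, G i j a c = - G i a j c) (h2 : ∀ i j a c, G i j a c = - G i j c a)
    (h3 : ∀ i j a, G i j j a = 0) (h4 : ∀ i j a, G i a j j = 0)
    (h : ∀ s a c, ∑ i, ∑ j, (XZ s i : k) * (XZ s j : k) * G i j a c = 0) :
    ∀ i j a c, G i j a c = - G j i a c := by
  have D : ∀ j a c, G j j a c = 0 := by
    intro j a c
    fin_cases j
    · have := h 0 a c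
      simp only [Fin.sum_univ_seven, XZ0_0, XZ0_1, XZ0_2, XZ0_3, XZ0_4, XZ0_5, XZ0_6, Int.cast_zero, Int.cast_one,
        zero_mul, mul_zero, one_mul, add_zero, zero_add] at this
      exact this
    · have := h 1 a c
      simp only [Fin.sum_univ_seven, XZ1_0, XZ1_1, XZ1_2, XZ1_3, XZ1_4, XZ1_5, XZ1_6, Int.cast_zero, Int.cast_one,
        zero_mul, mul_zero, one_mul, add_zero, zero_add] at this
      exact this
    · have := h 3 a c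
      simp only [Fin.sum_univ_seven, XZ3_0, XZ3_1, XZ3_2, XZ3_3, XZ3_4, XZ3_5, XZ3_6, Int.cast_zero, Int.cast_one,
        zero_mul, mul_zero, one_mul, add_zero, zero_add] at this
      exact this
    · have := h 4 a c
      simp only [Fin.sum_univ_seven, XZ4_0, XZ4_1, XZ4_2, XZ4_3, XZ4_4, XZ4_5, XZ4_6, Int.cast_zero, Int.cast_one,
        zero_mul, mul_zero, one_mul, add_zero, zero_add] at this
      exact this
    · have := h 5 a c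
      simp only [Fin.sum_univ_seven, XZ5_0, XZ5_1, XZ5_2, XZ5_3, XZ5_4, XZ5_5, XZ5_6, Int.cast_zero, Int.cast_one,
        zero_mul, mul_zero, one_mul, add_zero, zero_add] at this
      exact this
    · have := h 7 a c
      simp only [Fin.sum_univ_seven, XZ7_0, XZ7_1, XZ7_2, XZ7_3, XZ7_4, XZ7_5, XZ7_6, Int.cast_zero, Int.cast_one,
        zero_mul, mul_zero, one_mul, add_zero, zero_add] at this
      exact this
    · have := h 9 a c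
      simp only [Fin.sum_univ_seven, XZ9_0, XZ9_1, XZ9_2, XZ9_3, XZ9_4, XZ9_5, XZ9_6, Int.cast_zero, Int.cast_one,
        zero_mul, mul_zero, one_mul, add_zero, zero_add] at this
      exact this
  have H2 : ∀ a c, (G 0 1 a c + G 1 0 a c) + (G 0 2 a c + G 2 0 a c) + (G 1 2 a c + G 2 1 a c) = 0 := by
    intro a c
    have := h 2 a c
    simp only [Fin.sum_univ_seven, XZ2_0, XZ2_1, XZ2_2, XZ2_3, XZ2_4, XZ2_5, XZ2_6, Int.cast_zero, Int.cast_one,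
      Int.cast_neg, Int.cast_ofNat, zero_mul, mul_zero, one_mul, add_zero, zero_add] at this
    linear_combination this - 1 * D 0 a c - 1 * D 1 a c - 1 * D 2 a c
  have H6 : ∀ a c, - (G 0 3 a c + G 3 0 a c) - (G 0 4 a c + G 4 0 a c) + (G 3 4 a c + G 4 3 a c) = 0 := by
    intro a c
    have := h 6 a c
    simp only [Fin.sum_univ_seven, XZ6_0, XZ6_1, XZ6_2, XZ6_3, XZ6_4, XZ6_5, XZ6_6, Int.cast_zero, Int.cast_one,
      Int.cast_neg, Int.cast_ofNat, zero_mul, mul_zero, one_mul, add_zero, zero_add] at this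
    linear_combination this - 1 * D 0 a c - 1 * D 3 a c - 1 * D 4 a c
  have H8 : ∀ a c, (G 1 3 a c + G 3 1 a c) - (G 1 5 a c + G 5 1 a c) - (G 3 5 a c + G 5 3 a c) = 0 := by
    intro a c
    have := h 8 a c
    simp only [Fin.sum_univ_seven, XZ8_0, XZ8_1, XZ8_2, XZ8_3, XZ8_4, XZ8_5, XZ8_6, Int.cast_zero, Int.cast_one,
      Int.cast_neg, Int.cast_ofNat, zero_mul, mul_zero, one_mul, add_zero, zero_add] at this
    linear_combination this - 1 * D 1 a c - 1 * D 3 a c - 1 * D 5 a c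
  have H10 : ∀ a c, (G 0 1 a c + G 1 0 a c) + (G 0 2 a c + G 2 0 a c) - (G 0 4 a c + G 4 0 a c) + (G 0 6 a c + G 6 0 a c) + (G 1 2 a c + G 2 1 a c) - (G 1 4 a c + G 4 1 a c) + (G 1 6 a c + G 6 1 a c) - (G 2 4 a c + G 4 2 a c) + (G 2 6 a c + G 6 2 a c) - (G 4 6 a c + G 6 4 a c) = 0 := by
    intro a c
    have := h 10 a c
    simp only [Fin.sum_univ_seven, XZ10_0, XZ10_1, XZ10_2, XZ10_3, XZ10_4, XZ10_5, XZ10_6, Int.cast_zero, Int.cast_one,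
      Int.cast_neg, Int.cast_ofNat, zero_mul, mul_zero, one_mul, add_zero, zero_add] at this
    linear_combination this - 1 * D 0 a c - 1 * D 1 a c - 1 * D 2 a c - 1 * D 4 a c - 1 * D 6 a c
  have H11 : ∀ a c, (G 2 5 a c + G 5 2 a c) + (G 2 6 a c + G 6 2 a c) + (G 5 6 a c + G 6 5 a c) = 0 := by
    intro a c
    have := h 11 a c
    simp only [Fin.sum_univ_seven, XZ11_0, XZ11_1, XZ11_2, XZ11_3, XZ11_4, XZ11_5, XZ11_6, Int.cast_zero, Int.cast_one,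
      Int.cast_neg, Int.cast_ofNat, zero_mul, mul_zero, one_mul, add_zero, zero_add] at this
    linear_combination this - 1 * D 2 a c - 1 * D 5 a c - 1 * D 6 a c
  have H12 : ∀ a c, 2 * (G 0 1 a c + G 1 0 a c) - (G 0 2 a c + G 2 0 a c) - 2 * (G 1 2 a c + G 2 1 a c) = 0 := by
    intro a c
    have := h 12 a c
    simp only [Fin.sum_univ_seven, XZ12_0, XZ12_1, XZ12_2, XZ12_3, XZ12_4, XZ12_5, XZ12_6, Int.cast_zero, Int.cast_one,
      Int.cast_neg, Int.cast_ofNat, zero_mul, mul_zero, one_mul, add_zero, zero_add] at this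
    linear_combination this - 1 * D 0 a c - 4 * D 1 a c - 1 * D 2 a c
  have H13 : ∀ a c, - 2 * (G 0 3 a c + G 3 0 a c) + 2 * (G 0 4 a c + G 4 0 a c) - (G 3 4 a c + G 4 3 a c) = 0 := by
    intro a c
    have := h 13 a c
    simp only [Fin.sum_univ_seven, XZ13_0, XZ13_1, XZ13_2, XZ13_3, XZ13_4, XZ13_5, XZ13_6, Int.cast_zero, Int.cast_one,
      Int.cast_neg, Int.cast_ofNat, zero_mul, mul_zero, one_mul, add_zero, zero_add] at this
    linear_combination this - 4 * D 0 a c - 1 * D 3 a c - 1 * D 4 a c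
  have H14 : ∀ a c, 2 * (G 1 3 a c + G 3 1 a c) + (G 1 5 a c + G 5 1 a c) + 2 * (G 3 5 a c + G 5 3 a c) = 0 := by
    intro a c
    have := h 14 a c
    simp only [Fin.sum_univ_seven, XZ14_0, XZ14_1, XZ14_2, XZ14_3, XZ14_4, XZ14_5, XZ14_6, Int.cast_zero, Int.cast_one,
      Int.cast_neg, Int.cast_ofNat, zero_mul, mul_zero, one_mul, add_zero, zero_add] at this
    linear_combination this - 1 * D 1 a c - 4 * D 3 a c - 1 * D 5 a c
  have H15 : ∀ a c, 4 * (G 0 1 a c + G 1 0 a c) + 4 * (G 0 2 a c + G 2 0 a c) - 6 * (G 0 4 a c + G 4 0 a c) + 2 * (G 0 6 a c + G 6 0 a c) + 4 * (G 1 2 a c + G 2 1 a c) - 6 * (G 1 4 a c + G 4 1 a c) + 2 * (G 1 6 a c + G 6 1 a c) - 6 * (G 2 4 a c + G 4 2 a c) + 2 * (G 2 6 a c + G 6 2 a c) - 3 * (G 4 6 a c + G 6 4 a c) = 0 := by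
    intro a c
    have := h 15 a c
    simp only [Fin.sum_univ_seven, XZ15_0, XZ15_1, XZ15_2, XZ15_3, XZ15_4, XZ15_5, XZ15_6, Int.cast_zero, Int.cast_one,
      Int.cast_neg, Int.cast_ofNat, zero_mul, mul_zero, one_mul, add_zero, zero_add] at this
    linear_combination this - 4 * D 0 a c - 4 * D 1 a c - 4 * D 2 a c - 9 * D 4 a c - 1 * D 6 a c
  have H16 : ∀ a c, - (G 2 5 a c + G 5 2 a c) - 2 * (G 2 6 a c + G 6 2 a c) + 2 * (G 5 6 a c + G 6 5 a c) = 0 := by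
    intro a c
    have := h 16 a c
    simp only [Fin.sum_univ_seven, XZ16_0, XZ16_1, XZ16_2, XZ16_3, XZ16_4, XZ16_5, XZ16_6, Int.cast_zero, Int.cast_one,
      Int.cast_neg, Int.cast_ofNat, zero_mul, mul_zero, one_mul, add_zero, zero_add] at this
    linear_combination this - 1 * D 2 a c - 1 * D 5 a c - 4 * D 6 a c
  have H17 : ∀ a c, - (G 0 1 a c + G 1 0 a c) - 2 * (G 0 2 a c + G 2 0 a c) - 2 * (G 0 3 a c + G 3 0 a c) - (G 0 4 a c + G 4 0 a c) - (G 0 5 a c + G 5 0 a c) - 2 * (G 0 6 a c + G 6 0 a c) + 2 * (G 1 2 a c + G 2 1 a c) + 2 * (G 1 3 a c + G 3 1 a c) + (G 1 4 a c + G 4 1 a c) + (G 1 5 a c + G 5 1 a c) + 2 * (G 1 6 a c + G 6 1 a c) + 4 * (G 2 3 a c + G 3 2 a c) + 2 * (G 2 4 a c + G 4 2 a c) + 2 * (G 2 5 a c + G 5 2 a c) + 4 * (G 2 6 a c + G 6 2 a c) + 2 * (G 3 4 a c + G 4 3 a c) + 2 * (G 3 5 a c + G 5 3 a c) + 4 * (G 3 6 a c + G 6 3 a c) + (G 4 5 a c +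 G 5 4 a c) + 2 * (G 4 6 a c + G 6 4 a c) + 2 * (G 5 6 a c + G 6 5 a c) = 0 := by
    intro a c
    have := h 17 a c
    simp only [Fin.sum_univ_seven, XZ17_0, XZ17_1, XZ17_2, XZ17_3, XZ17_4, XZ17_5, XZ17_6, Int.cast_zero, Int.cast_one,
      Int.cast_neg, Int.cast_ofNat, zero_mul, mul_zero, one_mul, add_zero, zero_add] at this
    linear_combination this - 1 * D 0 a c - 1 * D 1 a c - 4 * D 2 a c - 4 * D 3 a c - 1 * D 4 a c - 1 * D 5 a c - 4 * D 6 a c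
  let S : Fin 7 → Fin 7 → Fin 7 → Fin 7 → k := fun i j a c => G i j a c + G j i a c
  have Z1 : ∀ i a c, S i a a c = 0 := by
    intro i a c
    change G i a a c + G a i a c = 0
    linear_combination h3 i a c + h1 a i a c - D a i c
  have Z2 : ∀ j a c, S a j a c = 0 := by
    intro j a c
    change G a j a c + G j a a c = 0
    linear_combination h3 j a c + h1 a j a c - D a j c
  have Z3 : ∀ i a c, S i c a c = 0 := by
    intro i a c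
    change G i c a c + G c i a c = 0
    linear_combination h1 i c a c - h4 i c a + h2 c i a c - h1 c i c a + D c i a
  have Z4 : ∀ j a c, S c j a c = 0 := by
    intro j a c
    change G c j a c + G j c a c = 0
    linear_combination h1 j c a c - h4 j c a + h2 c j a c - h1 c j c a + D c j a
  have L1 : ∀ p q r u, S q r p u = - S p q r u - S p r q u := by
    intro p q r u
    change G q r p u + G r q p u = - (G p q r u + G q p r u) - (G p r q u + G r p q u)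
    linear_combination h1 q r p u + h1 r q p u + h1 p q r u
  have L2 : ∀ p q r u, S q u p r = S p q r u - S p u q r := by
    intro p q r u
    change G q u p r + G u q p r = (G p q r u + G q p r u) - (G p u q r + G u p q r)
    linear_combination h1 q u p r - h2 q p u r + h1 u q p r + h1 p u q r - h2 p q u r
  have L3 : ∀ p q r u, S r u p q = S p r q u + S p u q r := by
    intro p q r u
    change G r u p q + G u r p q = (G p r q u + G r p q u) + (G p u q r + G u p q r)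
    linear_combination h1 r u p q - h2 r p u q + h1 u r p q - h2 u p r q - h1 p r q u -
      h1 p u q r + h2 p q u r
  obtain ⟨c0, c1, c2, c3, c4, c5, c6, c7, c8, c9, c10, c11, c12, c13, c14, c15, c16, c17, c18, c19, c20, c21, c22, c23, c24, c25, c26, c27, c28, c29, c30, c31, c32, c33, c34⟩ :=
    elimCore (0 : Fin 7) 1 2 3 4 5 6 S Z1 Z2 Z3 Z4 L1 L2 L3 H2 H6 H8 H10 H11 H12 H13 H14 H15 H16 H17
  have key : ∀ p q r u : Fin 7, p < q → q < r → r < u →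
      S p q r u = 0 ∧ S p r q u = 0 ∧ S p u q r = 0 := by
    intro p q r u hpq hqr hru
    have hmem : (p, q, r, u) ∈ quads := quads_mem p q r u hpq hqr hru
    simp only [quads, List.mem_cons, Prod.mk.injEq, List.not_mem_nil, or_false] at hmem
    rcases hmem with ⟨rfl, rfl, rfl, rfl⟩ | ⟨rfl, rfl, rfl, rfl⟩ | ⟨rfl, rfl, rfl, rfl⟩ | ⟨rfl, rfl, rfl, rfl⟩ | ⟨rfl, rfl, rfl, rfl⟩ | ⟨rfl, rfl, rfl, rfl⟩ | ⟨rfl, rfl, rfl, rfl⟩ | ⟨rfl, rfl, rfl, rfl⟩ | ⟨rfl, rfl, rfl, rfl⟩ | ⟨rfl, rfl, rfl, rfl⟩ | ⟨rfl, rfl, rfl, rfl⟩ | ⟨rfl, rfl, rfl, rfl⟩ | ⟨rfl, rfl, rfl, rfl⟩ | ⟨rfl, rfl, rfl, rfl⟩ | ⟨rfl, rfl, rfl, rfl⟩ | ⟨rfl, rfl, rfl, rfl⟩ | ⟨rfl, rfl, rfl, rfl⟩ | ⟨rfl, rfl, rfl, rfl⟩ | ⟨rfl, rfl, rfl, rfl⟩ | ⟨rfl, rfl, rfl, rfl⟩ | ⟨rfl, rfl, rfl, rfl⟩ | ⟨rfl, rfl, rfl, rfl⟩ | ⟨rfl, rfl, rfl, rfl⟩ | ⟨rfl, rfl, rfl, rfl⟩ | ⟨rfl, rfl, rfl, rfl⟩ | ⟨rfl, rfl, rfl, rfl⟩ | ⟨rfl, rfl,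 rfl, rfl⟩ | ⟨rfl, rfl, rfl, rfl⟩ | ⟨rfl, rfl, rfl, rfl⟩ | ⟨rfl, rfl, rfl, rfl⟩ | ⟨rfl, rfl, rfl, rfl⟩ | ⟨rfl, rfl, rfl, rfl⟩ | ⟨rfl, rfl, rfl, rfl⟩ | ⟨rfl, rfl, rfl, rfl⟩ | ⟨rfl, rfl, rfl, rfl⟩
    · exact c0
    · exact c1
    · exact c2
    · exact c3
    · exact c4
    · exact c5
    · exact c6
    · exact c7
    · exact c8
    · exact c9
    · exact c10
    · exact c11
    · exact c12
    · exact c13
    · exact c14
    · exact c15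
    · exact c16
    · exact c17
    · exact c18
    · exact c19
    · exact c20
    · exact c21
    · exact c22
    · exact c23
    · exact c24
    · exact c25
    · exact c26
    · exact c27
    · exact c28
    · exact c29
    · exact c30
    · exact c31
    · exact c32
    · exact c33
    · exact c34
  have A : ∀ i j a c : Fin 7, i < j → a < c → S i j a c = 0 := by
    intro i j a c hij hac
    rcases lt_trichotomy i a with hia | rfl | hia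
    · rcases lt_trichotomy j a with hja | rfl | hja
      · exact (key i j a c hij hja hac).1
      · exact Z1 _ _ _
      · rcases lt_trichotomy j c with hjc | rfl | hjc
        · exact (key i a j c hia hja hjc).2.1
        · exact Z3 _ _ _
        · exact (key i a c j hia hac hjc).2.2
    · exact Z2 _ _ _
    · rcases lt_trichotomy c i with hci | rfl | hci
      · rw [L3 a c i j]
        rw [(key a c i j hac hci hij).2.1, (key a c i j hac hci hij).2.2, add_zero]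
      · exact Z4 _ _ _
      · rcases lt_trichotomy c j with hcj | rfl | hcj
        · rw [L2 a i c j, (key a i c j hia hci hcj).1, (key a i c j hia hci hcj).2.2, sub_zero]
        · exact Z3 _ _ _
        · rw [L1 a i j c, (key a i j c hia hij hcj).1, (key a i j c hia hij hcj).2.1]
          ring
  have B : ∀ i j a c : Fin 7, a < c → S i j a c = 0 := by
    intro i j a c hac
    rcases lt_trichotomy i j with hij | rfl | hij
    · exact A i j a c hij hac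
    · change G i i a c + G i i a c = 0
      rw [D, add_zero]
    · have : S i j a c = S j i a c := add_comm _ _
      rw [this]
      exact A j i a c hij hac
  intro i j a c
  rw [eq_neg_iff_add_eq_zero]
  change S i j a c = 0
  rcases lt_trichotomy a c with hac | rfl | hac
  · exact B i j a c hac
  · change G i j a a + G j i a a = 0
    rw [h4, h4, add_zero]
  · have : S i j a c = - S i j c a := by
      change G i j a c + G j i a c = - (G i j c a + G j i c a)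
      linear_combination h2 i j a c + h2 j i a c
    rw [this, B i j c a hac, neg_zero]

end Pool.Agent.U174.Green.Octa
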