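import Mathlib

/-!
# Koszul differentials

For a `k`-vector space `W`, `k`-vector spaces `M₀, M₁, M₂` and bilinear maps `W × M₀ → M₁`,
`W × M₁ → M₂` we define the Koszul differentials
`⋀ᵖ⁺¹ W ⊗ M₀ → ⋀ᵖ W ⊗ M₁ → ⋀ᵖ⁻¹ W ⊗ M₂`.
-/

set_option autoImplicit false

namespace Pool.Agent.U174.Green

open TensorProduct Module

section Koszul

variable {k : Type} [Field k] (W : Type) [AddCommGroup W] [Module k W]

/-- For `w : W` the alternating map `(v₀, ..., v_{n-1}) ↦ (v₀ ∧ ... ∧ v_{n-1}) ⊗ w`. -/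
noncomputable def wedgeTmul (n : ℕ) : W →ₗ[k] W [⋀^Fin n]→ₗ[k] ((⋀[k]^n W) ⊗[k] W) where
  toFun w := ((TensorProduct.mk k (⋀[k]^n W) W).flip w).compAlternatingMap
    (exteriorPower.ιMulti k n)
  map_add' x y := by
    ext v
    simp
  map_smul' c x := by
    ext v
    simp

/-- The map `⋀ⁿ⁺¹ W → ⋀ⁿ W ⊗ W`,
`w₀ ∧ ... ∧ wₙ ↦ ∑ i, (-1) ^ i (w₀ ∧ ... ∧ ŵᵢ ∧ ... ∧ wₙ) ⊗ wᵢ`. -/
noncomputable def coprod (n : ℕ) : (⋀[k]^(n + 1) W) →ₗ[k] (⋀[k]^n W) ⊗[k] W :=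
  exteriorPower.alternatingMapLinearEquiv (R := k) (M := W) (N := (⋀[k]^n W) ⊗[k] W)
    (AlternatingMap.alternatizeUncurryFin (R := k) (M := W) (N := (⋀[k]^n W) ⊗[k] W) (n := n)
      (wedgeTmul (k := k) W n))

theorem coprod_ιMulti (n : ℕ) (w : Fin (n + 1) → W) :
    coprod (k := k) W n (exteriorPower.ιMulti k (n + 1) w) =
      ∑ i : Fin (n + 1), ((-1) ^ (i : ℕ) : k) •
        ((exteriorPower.ιMulti k n (i.removeNth w)) ⊗ₜ[k] w i) := by
  rw [coprod]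
  erw [exteriorPower.alternatingMapLinearEquiv_apply_ιMulti]
  rw [AlternatingMap.alternatizeUncurryFin_apply]
  refine Finset.sum_congr rfl fun i _ => ?_
  have h : ∀ x : (⋀[k]^n W) ⊗[k] W, ((-1) ^ (i : ℕ) : ℤ) • x = ((-1) ^ (i : ℕ) : k) • x := by
    intro x
    rw [← Int.cast_smul_eq_zsmul k]
    simp
  exact h _

variable {W}
variable {M M' : Type} [AddCommGroup M] [Module k M] [AddCommGroup M'] [Module k M']

/-- The Koszul differential `⋀ⁿ⁺¹ W ⊗ M → ⋀ⁿ W ⊗ M'` given by a bilinear map `μ : W × M → M'`: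
`(w₀ ∧ ... ∧ wₙ) ⊗ m ↦ ∑ i, (-1) ^ i (w₀ ∧ ... ∧ ŵᵢ ∧ ... ∧ wₙ) ⊗ μ (wᵢ, m)`. -/
noncomputable def koszulD (μ : W →ₗ[k] M →ₗ[k] M') (n : ℕ) :
    (⋀[k]^(n + 1) W) ⊗[k] M →ₗ[k] (⋀[k]^n W) ⊗[k] M' :=
  (LinearMap.lTensor (⋀[k]^n W) (TensorProduct.lift μ)) ∘ₗ
    (TensorProduct.assoc k (⋀[k]^n W) W M).toLinearMap ∘ₗ
      (LinearMap.rTensor M (coprod (k := k) W n))

theorem koszulD_ιMulti (μ : W →ₗ[k] M →ₗ[k] M') (n : ℕ) (w : Fin (n + 1) → W) (m : M) :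
    koszulD μ n ((exteriorPower.ιMulti k (n + 1) w) ⊗ₜ[k] m) =
      ∑ i : Fin (n + 1), ((-1) ^ (i : ℕ) : k) •
        ((exteriorPower.ιMulti k n (i.removeNth w)) ⊗ₜ[k] (μ (w i) m)) := by
  simp only [koszulD, LinearMap.comp_apply, LinearMap.rTensor_tmul, coprod_ιMulti]
  rw [TensorProduct.sum_tmul, map_sum, map_sum]
  refine Finset.sum_congr rfl fun i _ => ?_
  rw [← TensorProduct.smul_tmul' ((-1) ^ (i : ℕ) : k)
    ((exteriorPower.ιMulti k n (i.removeNth w)) ⊗ₜ[k] w i) m, map_smul, map_smul]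
  simp

/-- A double alternating sum of a symmetric function is zero. -/
theorem double_sum_zero {N : Type} [AddCommGroup N] [Module k N] (n : ℕ)
    (f : W →ₗ[k] W →ₗ[k] W [⋀^Fin n]→ₗ[k] N) (hf : ∀ x y, f x y = f y x)
    (w : Fin (n + 1 + 1) → W) :
    ∑ i : Fin (n + 1 + 1), ((-1) ^ (i : ℕ) : k) • ∑ j : Fin (n + 1), ((-1) ^ (j : ℕ) : k) •
      f (w i) (i.removeNth w j) (j.removeNth (i.removeNth w)) = 0 := by
  have key := DFunLike.congr_fun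
    (AlternatingMap.alternatizeUncurryFin_alternatizeUncurryFinLM_comp_of_symmetric hf) w
  rw [AlternatingMap.alternatizeUncurryFin_apply] at key
  have hz : ∀ (i : ℕ) (x : N), ((-1) ^ i : ℤ) • x = ((-1) ^ i : k) • x := by
    intro i x
    rw [← Int.cast_smul_eq_zsmul k]
    simp
  refine Eq.trans (Finset.sum_congr rfl fun i _ => ?_) key
  rw [hz, LinearMap.comp_apply, AlternatingMap.alternatizeUncurryFinLM_apply,
    AlternatingMap.alternatizeUncurryFin_apply]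
  congr 1
  refine Finset.sum_congr rfl fun j _ => ?_
  rw [hz]

/-- For `m : M₀` the bilinear map to the alternating maps
`(x, y) ↦ (v ↦ (v₀ ∧ ... ∧ v_{n-1}) ⊗ μ₁ (y, μ₀ (x, m)))`. -/
noncomputable def doubleWedge {M₀ M₁ M₂ : Type} [AddCommGroup M₀] [Module k M₀] [AddCommGroup M₁]
    [Module k M₁] [AddCommGroup M₂] [Module k M₂] (μ₀ : W →ₗ[k] M₀ →ₗ[k] M₁)
    (μ₁ : W →ₗ[k] M₁ →ₗ[k] M₂) (n : ℕ) (m : M₀) :
    W →ₗ[k] W →ₗ[k] W [⋀^Fin n]→ₗ[k] ((⋀[k]^n W) ⊗[k] M₂) :=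
  LinearMap.mk₂ k (fun x y => ((TensorProduct.mk k (⋀[k]^n W) M₂).flip
      (μ₁ y (μ₀ x m))).compAlternatingMap (exteriorPower.ιMulti k n))
    (by intro x x' y; ext v; simp)
    (by intro c x y; ext v; simp)
    (by intro x y y'; ext v; simp)
    (by intro c x y; ext v; simp)

theorem doubleWedge_apply {M₀ M₁ M₂ : Type} [AddCommGroup M₀] [Module k M₀] [AddCommGroup M₁]
    [Module k M₁] [AddCommGroup M₂] [Module k M₂] (μ₀ : W →ₗ[k] M₀ →ₗ[k] M₁)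
    (μ₁ : W →ₗ[k] M₁ →ₗ[k] M₂) (n : ℕ) (m : M₀) (x y : W) (v : Fin n → W) :
    doubleWedge μ₀ μ₁ n m x y v = (exteriorPower.ιMulti k n v) ⊗ₜ[k] (μ₁ y (μ₀ x m)) := rfl

/-- The composition of two Koszul differentials is zero. -/
theorem koszulD_comp {M₀ M₁ M₂ : Type} [AddCommGroup M₀] [Module k M₀] [AddCommGroup M₁]
    [Module k M₁] [AddCommGroup M₂] [Module k M₂] (μ₀ : W →ₗ[k] M₀ →ₗ[k] M₁)
    (μ₁ : W →ₗ[k] M₁ →ₗ[k] M₂) (h : ∀ w w' m, μ₁ w (μ₀ w' m) = μ₁ w' (μ₀ w m)) (n : ℕ)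
    (T : (⋀[k]^(n + 1 + 1) W) ⊗[k] M₀) :
    koszulD μ₁ n (koszulD μ₀ (n + 1) T) = 0 := by
  induction T using TensorProduct.induction_on with
  | zero => simp
  | add x y hx hy => rw [map_add, map_add, hx, hy, add_zero]
  | tmul u m =>
    have hu : u ∈ Submodule.span k (Set.range (exteriorPower.ιMulti k (n + 1 + 1) (M := W))) := by
      rw [exteriorPower.ιMulti_span]
      trivial
    induction hu using Submodule.span_induction with
    | zero => simp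
    | add x y _ _ hx hy => rw [TensorProduct.add_tmul, map_add, map_add, hx, hy, add_zero]
    | smul c x _ hx => rw [← TensorProduct.smul_tmul', map_smul, map_smul, hx, smul_zero]
    | mem x hx =>
      obtain ⟨w, rfl⟩ := hx
      have hsym : ∀ x y : W, doubleWedge μ₀ μ₁ n m x y = doubleWedge μ₀ μ₁ n m y x := by
        intro x y
        ext v
        rw [doubleWedge_apply, doubleWedge_apply, h]
      rw [koszulD_ιMulti, map_sum]
      have key := double_sum_zero (k := k) (W := W) (N := (⋀[k]^n W) ⊗[k] M₂) n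
        (doubleWedge μ₀ μ₁ n m) hsym w
      refine Eq.trans (Finset.sum_congr rfl fun i _ => ?_) key
      rw [map_smul, koszulD_ιMulti]
      rfl

end Koszul

end Pool.Agent.U174.Green
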