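import Pool.Agent.U174.Green.Octa

set_option autoImplicit false

namespace Pool.Agent.U174.Green.Octa

open Polynomial Module

variable {k : Type} [Field k] [CharZero k]

/-- The functional on `H⁰(ω²)` at the node `e`. -/
noncomputable def resO2 (e : Fin 12) : Dual k ((octa k).omega.pow 2).H0 :=
  ((DZ e 0 : k)⁻¹ ^ 2) • ((Polynomial.leval (ptO e 0 : k)) ∘ₗ (LinearMap.proj (compO e 0)) ∘ₗ
    ((octa k).omega.pow 2).H0.subtype)

theorem resO2_apply (e : Fin 12) (w : ((octa k).omega.pow 2).H0) :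
    resO2 e w = (DZ e 0 : k)⁻¹ ^ 2 * (w.1 (compO e 0)).eval (ptO e 0 : k) := rfl

/-- The leading coefficient of a section of `ω²` on the component `v`. -/
noncomputable def leadO2 (v : Fin 6) : Dual k ((octa k).omega.pow 2).H0 :=
  (Polynomial.lcoeff k 4) ∘ₗ (LinearMap.proj v) ∘ₗ ((octa k).omega.pow 2).H0.subtype

theorem leadO2_apply (v : Fin 6) (w : ((octa k).omega.pow 2).H0) :
    leadO2 v w = (w.1 v).coeff 4 := rfl

/-- The functionals on `H⁰(ω²)` of the 18 points. -/
noncomputable def yO : Fin 18 → Dual k ((octa k).omega.pow 2).H0 :=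
  Fin.addCases (m := 12) (n := 6) (motive := fun _ => Dual k ((octa k).omega.pow 2).H0)
    resO2 leadO2

theorem pow_one_H0 {C : LineCurve k} (F : C.TFSheaf) : F.H0 = (F.pow 1).H0 := by
  ext s
  simp [LineCurve.TFSheaf.H0, LineCurve.TFSheaf.pow]

theorem one_mem_pow_zero {C : LineCurve k} (F : C.TFSheaf) :
    (1 : Fin C.V → k[X]) ∈ (F.pow 0).H0 := by
  refine ⟨fun v n hn => ?_, fun e _ => ?_⟩
  · have h : n ≠ 0 := by
      rintro rfl
      simp [LineCurve.TFSheaf.pow] at hn
    rw [Pi.one_apply, coeff_one, if_neg h]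
  · simp [LineCurve.TFSheaf.pow]

theorem coeff_four (p q : k[X]) (hp : ∀ n : ℕ, 2 < n → p.coeff n = 0)
    (hq : ∀ n : ℕ, 2 < n → q.coeff n = 0) : (p * q).coeff 4 = p.coeff 2 * q.coeff 2 := by
  rw [coeff_mul, Finset.sum_eq_single (2, 2)]
  · rintro ⟨a, b⟩ hab hne
    have h := Finset.HasAntidiagonal.mem_antidiagonal.1 hab
    simp only at h
    by_cases ha : 2 < a
    · rw [hp a ha, zero_mul]
    · have hb : 2 < b := by
        by_contra hb
        apply hne
        rw [Prod.mk.injEq]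
        omega
      rw [hq b hb, mul_zero]
  · intro h
    exact absurd (Finset.HasAntidiagonal.mem_antidiagonal.2 (by norm_num)) h

/-- The multiplication `H⁰(L) × H⁰(L^q) → H⁰(L^{q+1})`. -/
noncomputable def mulLin {C : LineCurve k} (L : C.TFSheaf) (q : ℕ) :
    L.H0 →ₗ[k] (L.pow q).H0 →ₗ[k] (L.pow (q + 1)).H0 :=
  LinearMap.mk₂ k (fun s t => ⟨s.1 * t.1, L.mul_mem q s.2 t.2⟩)
    (fun s s' t => Subtype.ext (add_mul s.1 s'.1 t.1))
    (fun c s t => Subtype.ext (smul_mul_assoc c s.1 t.1))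
    (fun s t t' => Subtype.ext (mul_add s.1 t.1 t'.1))
    (fun c s t => Subtype.ext (mul_smul_comm c s.1 t.1))

theorem kZero_octa : (octa k).KZero 2 := by
  have h4 : (4 : k) ≠ 0 := by norm_num
  refine koszulVanishes_of_criterion (mulLin (octa k).omega 0) (mulLin (octa k).omega 1) ?_ h4
    basisO (LinearEquiv.ofEq _ _ (pow_one_H0 _)) ⟨1, one_mem_pow_zero _⟩ ?_ xO yO ?_ ?_
  · intro w w' m
    apply Subtype.ext
    change w.1 * (w'.1 * m.1) = w'.1 * (w.1 * m.1)
    ring
  · intro w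
    apply Subtype.ext
    change w.1 * 1 = w.1
    rw [mul_one]
  · intro s w w'
    refine Fin.addCases (m := 12) (n := 6)
      (motive := fun s => yO s (((mulLin (octa k).omega 1) w)
        ((LinearEquiv.ofEq _ _ (pow_one_H0 _)) w')) = xO s w * xO s w') ?_ ?_ s
    · intro e
      rw [yO, xO, Fin.addCases_left, Fin.addCases_left, resO2_apply, resO_apply, resO_apply]
      change _ * (w.1 (compO e 0) * w'.1 (compO e 0)).eval (ptO e 0 : k) = _
      rw [eval_mul]
      ring
    · intro v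
      rw [yO, xO, Fin.addCases_right, Fin.addCases_right, leadO2_apply, leadO_apply, leadO_apply]
      change (w.1 v * w'.1 v).coeff 4 = _
      exact coeff_four _ _ (((mem_omega w.1).1 w.2).1 v) (((mem_omega w'.1).1 w'.2).1 v)
  · intro G h1 h2 h3 h4 h
    apply elim G h1 h2 h3 h4
    intro s a c
    have := h s a c
    simp only [basisO_apply, xO_secO] at this
    exact this

/-! ### The other properties -/

theorem compO_conn : ∀ B : Finset (Fin 6), B.Nonempty → B ≠ Finset.univ →
    ∃ e i j, compO e i ∈ B ∧ compO e j ∉ B := by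
  decide +kernel

theorem connected_octa : (octa k).Connected := ⟨Nat.succ_pos 5, compO_conn⟩

theorem inter_aux : ∀ B : Finset (Fin 6), B.Nonempty → B ≠ Finset.univ →
    (4 : ℤ) ≤ ∑ v ∈ B, (2 : ℤ) - (2 * (1 - ((B.card : ℤ) -
      (Finset.univ.filter fun e : Fin 12 => compO e 0 ∈ B ∧ compO e 1 ∈ B).card)) - 2) := by
  decide +kernel

theorem mConnected_octa : (octa k).MConnected 4 := by
  intro B h1 h2
  have h := inter_aux B h1 h2
  have h3 : ∑ v ∈ B, (octa k).omega.deg v = ∑ v ∈ B, (2 : ℤ) :=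
    Finset.sum_congr rfl fun v _ => deg_omega v
  rw [LineCurve.inter, h3]
  exact h

theorem not_hyperelliptic_octa : ¬ (octa k).Hyperelliptic := by
  rintro ⟨f, g, -, -, h1, h2⟩
  have h3 : ∑ v : Fin (octa k).V, 1 ≤ ∑ v, max (f v).natDegree (g v).natDegree :=
    Finset.sum_le_sum fun v _ => h1 v
  rw [h2] at h3
  have h4 : ∑ v : Fin (octa k).V, 1 = 6 := by
    rw [Finset.sum_const, Finset.card_univ, smul_eq_mul, mul_one]
    exact Fintype.card_fin 6
  omega

theorem pa_octa : (octa k).pa = 7 := by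
  change (1 : ℤ) - (((Finset.univ : Finset (Fin 6)).card : ℤ) -
    (Finset.univ.filter fun e : Fin 12 => compO e 0 ∈ (Finset.univ : Finset (Fin 6)) ∧
      compO e 1 ∈ (Finset.univ : Finset (Fin 6))).card) = 7
  decide +kernel

theorem h0_omega_octa : (octa k).omega.h0 = 7 := by
  rw [LineCurve.TFSheaf.h0, finrank_eq_card_basis basisO, Fintype.card_fin]

end Pool.Agent.U174.Green.Octa
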