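import Pool.Agent.U174.Green.Elim2
import Pool.Agent.U174.Green.Criterion
import Pool.Agent.U174.Green.Curve

/-!
# The octahedral curve

Six projective lines which meet like the vertices of an octahedron: every line meets the four
lines which are not opposite to it in one point each.
-/

set_option autoImplicit false

namespace Pool.Agent.U174.Green.Octa

open Polynomial Module

/-- The two components through the twelve nodes. -/
def compO : Fin 12 → Fin 2 → Fin 6 :=
  ![![0, 1], ![0, 2], ![0, 3], ![0, 4], ![1, 2], ![1, 3], ![1, 5], ![2, 4], ![2, 5], ![3, 4], ![3, 5], ![4, 5]]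

/-- The coordinates of the nodes on the two components. -/
def ptO : Fin 12 → Fin 2 → ℤ :=
  ![![0, -1], ![-1, 1], ![1, 1], ![2, 2], ![0, 2], ![2, 2], ![1, 2], ![-1, 0], ![0, 0], ![0, -1], ![-1, 1], ![1, -1]]

theorem injO : ∀ e i e' i', compO e i = compO e' i' → ptO e i = ptO e' i' → e = e' ∧ i = i' := by
  decide +kernel

/-- The octahedral curve. -/
def octa (k : Type) [Field k] [CharZero k] : LineCurve k where
  V := 6
  E := 12
  comp := compO
  pt e i := (ptO e i : k)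
  comp_ne := by decide
  inj e i e' i' h1 h2 := injO e i e' i' h1 (Int.cast_injective h2)

/-- The products of the differences. -/
def DZ : Fin 12 → Fin 2 → ℤ :=
  ![![2, -6], ![-6, -2], ![-2, -2], ![6, 6], ![2, 6], ![6, 6], ![-2, 6], ![-6, 2], ![2, 2], ![2, -6], ![-6, -2], ![-2, -6]]

theorem DZ_eq : ∀ x : Fin 12 × Fin 2, ∏ y ∈ (Finset.univ.filter fun y : Fin 12 × Fin 2 =>
    compO y.1 y.2 = compO x.1 x.2).erase x, (ptO x.1 x.2 - ptO y.1 y.2) = DZ x.1 x.2 := by
  decide +kernel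

theorem DZ_ne : ∀ e i, DZ e i ≠ 0 := by decide

/-- The coefficients of the sections of the dualizing sheaf which form a basis. -/
def BAS : Fin 7 → Fin 6 → Fin 3 → ℤ :=
  ![![![2, 1, -1], ![0, -4, 2], ![0, 0, 0], ![0, -4, 2], ![0, 0, 0], ![0, -1, -1]],
    ![![0, 4, -2], ![0, 0, 0], ![2, 1, -1], ![0, -4, 2], ![0, 0, 0], ![-2, -1, 1]],
    ![![0, 1, 1], ![0, 0, 0], ![0, 0, 0], ![0, -4, 2], ![0, -1, -1], ![0, -4, 2]],
    ![![0, 0, 0], ![2, 1, -1], ![2, 0, -2], ![0, 0, 0], ![0, 0, 0], ![-2, 0, 2]],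
    ![![0, 0, 0], ![0, 1, 1], ![0, 0, 0], ![0, 3, -3], ![0, 0, 0], ![0, 1, 1]],
    ![![0, 0, 0], ![0, 0, 0], ![-2, 3, -1], ![0, 0, 0], ![-2, -1, 1], ![2, -3, 1]],
    ![![0, 0, 0], ![0, 0, 0], ![0, 0, 0], ![2, -3, 1], ![0, -4, 2], ![0, -4, 2]]]

/-- The values of these sections. -/
def evZ (j : Fin 7) (v : Fin 6) (a : ℤ) : ℤ := BAS j v 0 + BAS j v 1 * a + BAS j v 2 * a ^ 2

theorem evZ_glue : ∀ j e, evZ j (compO e 1) (ptO e 1) * DZ e 0 =
    - (DZ e 1 * evZ j (compO e 0) (ptO e 0)) := by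
  decide +kernel

theorem evZ_XZ : ∀ (e : Fin 12) (j : Fin 7), evZ j (compO e 0) (ptO e 0) =
    DZ e 0 * XZ (Fin.castAdd 6 e) j := by
  decide +kernel

theorem BAS_XZ : ∀ (v : Fin 6) (j : Fin 7), BAS j v 2 = XZ (Fin.natAdd 12 v) j := by
  decide +kernel

variable {k : Type} [Field k] [CharZero k]

theorem diffProd_octa (x : Fin 12 × Fin 2) : (octa k).diffProd x = (DZ x.1 x.2 : k) := by
  rw [← DZ_eq x, Int.cast_prod]
  refine Finset.prod_congr rfl fun y _ => ?_
  rw [Int.cast_sub]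
  rfl

theorem deg_omega (v : Fin 6) : (octa k).omega.deg v = 2 := by
  have h : ∀ v : Fin 6, (Finset.univ.filter fun x : Fin 12 × Fin 2 => compO x.1 x.2 = v).card =
    4 := by decide +kernel
  change (((Finset.univ.filter fun x : Fin 12 × Fin 2 => compO x.1 x.2 = v).card : ℤ)) - 2 = 2
  rw [h]
  norm_num

theorem glue_omega (e : Fin 12) : (octa k).omega.glue e = - ((DZ e 1 : k) / (DZ e 0 : k)) := by
  change - ((octa k).diffProd (e, 1) / (octa k).diffProd (e, 0)) = _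
  rw [diffProd_octa, diffProd_octa]

theorem DZ_cast_ne (e : Fin 12) (i : Fin 2) : (DZ e i : k) ≠ 0 :=
  Int.cast_ne_zero.2 (DZ_ne e i)

/-- The sections of the dualizing sheaf, in terms of integers. -/
theorem mem_omega (w : Fin 6 → k[X]) : w ∈ (octa k).omega.H0 ↔
    (∀ v, ∀ n : ℕ, 2 < n → (w v).coeff n = 0) ∧
    ∀ e : Fin 12, (w (compO e 1)).eval (ptO e 1 : k) * (DZ e 0 : k) +
      (DZ e 1 : k) * (w (compO e 0)).eval (ptO e 0 : k) = 0 := by
  constructor
  · intro h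
    refine ⟨fun v n hn => h.1 v n ?_, fun e => ?_⟩
    · rw [deg_omega]
      exact_mod_cast hn
    · have := h.2 e (Finset.mem_univ e)
      rw [glue_omega] at this
      change (w (compO e 1)).eval (ptO e 1 : k) = _ * (w (compO e 0)).eval (ptO e 0 : k) at this
      rw [this]
      field_simp [DZ_cast_ne (k := k) e 0]
      ring
  · intro h
    refine ⟨fun v n hn => h.1 v n ?_, fun e _ => ?_⟩
    · rw [deg_omega] at hn
      exact_mod_cast hn
    · have := h.2 e
      rw [glue_omega]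
      change (w (compO e 1)).eval (ptO e 1 : k) = _ * (w (compO e 0)).eval (ptO e 0 : k)
      rw [neg_mul, div_mul_eq_mul_div, ← neg_div, eq_div_iff (DZ_cast_ne e 0)]
      linear_combination this

/-- The basis. -/
noncomputable def secO (j : Fin 7) (v : Fin 6) : k[X] :=
  C (BAS j v 0 : k) + C (BAS j v 1 : k) * X + C (BAS j v 2 : k) * X ^ 2

theorem eval_secO (j : Fin 7) (v : Fin 6) (a : ℤ) :
    (secO (k := k) j v).eval (a : k) = (evZ j v a : k) := by
  simp [secO, evZ]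

theorem coeff_secO (j : Fin 7) (v : Fin 6) (n : ℕ) (hn : 2 < n) :
    (secO (k := k) j v).coeff n = 0 := by
  have h0 : n ≠ 0 := by omega
  have h1 : 1 ≠ n := by omega
  have h2 : n ≠ 2 := by omega
  rw [secO, coeff_add, coeff_add, coeff_C_mul, coeff_C_mul, coeff_C, coeff_X, coeff_X_pow,
    if_neg h0, if_neg h1, if_neg h2, mul_zero, mul_zero, add_zero, add_zero]

theorem coeff2_secO (j : Fin 7) (v : Fin 6) : (secO (k := k) j v).coeff 2 = (BAS j v 2 : k) := by
  rw [secO, coeff_add, coeff_add, coeff_C_mul, coeff_C_mul, coeff_C, coeff_X, coeff_X_pow,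
    if_neg (by decide), if_neg (by decide), if_pos rfl, mul_zero, mul_one, add_zero, zero_add]

theorem secO_mem (j : Fin 7) : secO (k := k) j ∈ (octa k).omega.H0 := by
  rw [mem_omega]
  refine ⟨fun v n hn => coeff_secO j v n hn, fun e => ?_⟩
  rw [eval_secO, eval_secO]
  have := evZ_glue j e
  have h2 : ((evZ j (compO e 1) (ptO e 1) * DZ e 0 : ℤ) : k) =
    ((- (DZ e 1 * evZ j (compO e 0) (ptO e 0)) : ℤ) : k) := by rw [this]
  push_cast at h2
  linear_combination h2

/-- The basis, in `H⁰(ω)`. -/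
noncomputable def secH (j : Fin 7) : (octa k).omega.H0 := ⟨secO j, secO_mem j⟩

/-- The residue at the node `e`. -/
noncomputable def resO (e : Fin 12) : Dual k (octa k).omega.H0 :=
  (DZ e 0 : k)⁻¹ • ((Polynomial.leval (ptO e 0 : k)) ∘ₗ (LinearMap.proj (compO e 0)) ∘ₗ
    (octa k).omega.H0.subtype)

theorem resO_apply (e : Fin 12) (w : (octa k).omega.H0) :
    resO e w = (DZ e 0 : k)⁻¹ * (w.1 (compO e 0)).eval (ptO e 0 : k) := rfl

/-- The leading coefficient on the component `v`. -/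
noncomputable def leadO (v : Fin 6) : Dual k (octa k).omega.H0 :=
  (Polynomial.lcoeff k 2) ∘ₗ (LinearMap.proj v) ∘ₗ (octa k).omega.H0.subtype

theorem leadO_apply (v : Fin 6) (w : (octa k).omega.H0) : leadO v w = (w.1 v).coeff 2 := rfl

/-- The functionals of the 18 points. -/
noncomputable def xO : Fin 18 → Dual k (octa k).omega.H0 :=
  Fin.addCases (m := 12) (n := 6) (motive := fun _ => Dual k (octa k).omega.H0) resO leadO

theorem xO_secO (s : Fin 18) (j : Fin 7) : xO s (secH (k := k) j) = (XZ s j : k) := by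
  refine Fin.addCases (m := 12) (n := 6)
    (motive := fun s => xO s (secH (k := k) j) = (XZ s j : k)) ?_ ?_ s
  · intro e
    rw [xO, Fin.addCases_left, resO_apply]
    change _ * (secO j (compO e 0)).eval (ptO e 0 : k) = _
    rw [eval_secO, evZ_XZ, Int.cast_mul, ← mul_assoc, inv_mul_cancel₀ (DZ_cast_ne e 0), one_mul]
  · intro v
    rw [xO, Fin.addCases_right, leadO_apply]
    change (secO j v).coeff 2 = _
    rw [coeff2_secO, BAS_XZ]

/-- The nodes of the basis. -/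
def cot : Fin 7 → Fin 18 := ![0, 1, 3, 4, 5, 7, 9]

theorem XZ_cot : ∀ i j, XZ (cot i) j = if i = j then 1 else 0 := by decide

/-- The coordinates. -/
noncomputable def PhiO : (octa k).omega.H0 →ₗ[k] (Fin 7 → k) :=
  LinearMap.pi fun i => xO (cot i)

theorem PhiO_secO (j : Fin 7) :
    PhiO (secH (k := k) j) = Pi.single j 1 := by
  funext i
  rw [PhiO, LinearMap.pi_apply, xO_secO, XZ_cot]
  by_cases h : i = j
  · subst h
    simp
  · simp [h, Pi.single_apply]

theorem eval_quad (p : k[X]) (hp : ∀ n : ℕ, 2 < n → p.coeff n = 0) (a : k) :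
    p.eval a = p.coeff 0 + p.coeff 1 * a + p.coeff 2 * a ^ 2 := by
  have h : p.natDegree < 3 := by
    rw [Nat.lt_succ_iff, natDegree_le_iff_coeff_eq_zero]
    exact fun n hn => hp n hn
  rw [eval_eq_sum_range' h, Finset.sum_range_succ, Finset.sum_range_succ, Finset.sum_range_one]
  ring

theorem inj_aux (P : Fin 6 → k[X]) (hd : ∀ v, ∀ n : ℕ, 2 < n → (P v).coeff n = 0)
    (hg : ∀ e : Fin 12, (P (compO e 1)).eval (ptO e 1 : k) * (DZ e 0 : k) +
      (DZ e 1 : k) * (P (compO e 0)).eval (ptO e 0 : k) = 0)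
    (hq : ∀ e : Fin 12, e = 0 ∨ e = 1 ∨ e = 3 ∨ e = 4 ∨ e = 5 ∨ e = 7 ∨ e = 9 →
      (P (compO e 0)).eval (ptO e 0 : k) = 0) : P = 0 := by
  have g0 : (((P 1).coeff 0) + ((P 1).coeff 1) * (-1) + ((P 1).coeff 2) * (-1) ^ 2) * 2 + (-6) * (((P 0).coeff 0) + ((P 0).coeff 1) * 0 + ((P 0).coeff 2) * 0 ^ 2) = 0 := by
    have := hg 0
    rw [eval_quad _ (hd _), eval_quad _ (hd _)] at this
    simpa [compO, ptO, DZ] using this
  have g1 : (((P 2).coeff 0) + ((P 2).coeff 1) * 1 + ((P 2).coeff 2) * 1 ^ 2) * (-6) + (-2) * (((P 0).coeff 0) + ((P 0).coeff 1) * (-1) + ((P 0).coeff 2) * (-1) ^ 2) = 0 := by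
    have := hg 1
    rw [eval_quad _ (hd _), eval_quad _ (hd _)] at this
    simpa [compO, ptO, DZ] using this
  have g2 : (((P 3).coeff 0) + ((P 3).coeff 1) * 1 + ((P 3).coeff 2) * 1 ^ 2) * (-2) + (-2) * (((P 0).coeff 0) + ((P 0).coeff 1) * 1 + ((P 0).coeff 2) * 1 ^ 2) = 0 := by
    have := hg 2
    rw [eval_quad _ (hd _), eval_quad _ (hd _)] at this
    simpa [compO, ptO, DZ] using this
  have g3 : (((P 4).coeff 0) + ((P 4).coeff 1) * 2 + ((P 4).coeff 2) * 2 ^ 2) * 6 + 6 * (((P 0).coeff 0) + ((P 0).coeff 1) * 2 + ((P 0).coeff 2) * 2 ^ 2) = 0 := by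
    have := hg 3
    rw [eval_quad _ (hd _), eval_quad _ (hd _)] at this
    simpa [compO, ptO, DZ] using this
  have g4 : (((P 2).coeff 0) + ((P 2).coeff 1) * 2 + ((P 2).coeff 2) * 2 ^ 2) * 2 + 6 * (((P 1).coeff 0) + ((P 1).coeff 1) * 0 + ((P 1).coeff 2) * 0 ^ 2) = 0 := by
    have := hg 4
    rw [eval_quad _ (hd _), eval_quad _ (hd _)] at this
    simpa [compO, ptO, DZ] using this
  have g5 : (((P 3).coeff 0) + ((P 3).coeff 1) * 2 + ((P 3).coeff 2) * 2 ^ 2) * 6 + 6 * (((P 1).coeff 0) + ((P 1).coeff 1) * 2 + ((P 1).coeff 2) * 2 ^ 2) = 0 := by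
    have := hg 5
    rw [eval_quad _ (hd _), eval_quad _ (hd _)] at this
    simpa [compO, ptO, DZ] using this
  have g6 : (((P 5).coeff 0) + ((P 5).coeff 1) * 2 + ((P 5).coeff 2) * 2 ^ 2) * (-2) + 6 * (((P 1).coeff 0) + ((P 1).coeff 1) * 1 + ((P 1).coeff 2) * 1 ^ 2) = 0 := by
    have := hg 6
    rw [eval_quad _ (hd _), eval_quad _ (hd _)] at this
    simpa [compO, ptO, DZ] using this
  have g7 : (((P 4).coeff 0) + ((P 4).coeff 1) * 0 + ((P 4).coeff 2) * 0 ^ 2) * (-6) + 2 * (((P 2).coeff 0) + ((P 2).coeff 1) * (-1) + ((P 2).coeff 2) * (-1) ^ 2) = 0 := by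
    have := hg 7
    rw [eval_quad _ (hd _), eval_quad _ (hd _)] at this
    simpa [compO, ptO, DZ] using this
  have g8 : (((P 5).coeff 0) + ((P 5).coeff 1) * 0 + ((P 5).coeff 2) * 0 ^ 2) * 2 + 2 * (((P 2).coeff 0) + ((P 2).coeff 1) * 0 + ((P 2).coeff 2) * 0 ^ 2) = 0 := by
    have := hg 8
    rw [eval_quad _ (hd _), eval_quad _ (hd _)] at this
    simpa [compO, ptO, DZ] using this
  have g9 : (((P 4).coeff 0) + ((P 4).coeff 1) * (-1) + ((P 4).coeff 2) * (-1) ^ 2) * 2 + (-6) * (((P 3).coeff 0) + ((P 3).coeff 1) * 0 + ((P 3).coeff 2) * 0 ^ 2) = 0 := by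
    have := hg 9
    rw [eval_quad _ (hd _), eval_quad _ (hd _)] at this
    simpa [compO, ptO, DZ] using this
  have g10 : (((P 5).coeff 0) + ((P 5).coeff 1) * 1 + ((P 5).coeff 2) * 1 ^ 2) * (-6) + (-2) * (((P 3).coeff 0) + ((P 3).coeff 1) * (-1) + ((P 3).coeff 2) * (-1) ^ 2) = 0 := by
    have := hg 10
    rw [eval_quad _ (hd _), eval_quad _ (hd _)] at this
    simpa [compO, ptO, DZ] using this
  have g11 : (((P 5).coeff 0) + ((P 5).coeff 1) * (-1) + ((P 5).coeff 2) * (-1) ^ 2) * (-2) + (-6) * (((P 4).coeff 0) + ((P 4).coeff 1) * 1 + ((P 4).coeff 2) * 1 ^ 2) = 0 := by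
    have := hg 11
    rw [eval_quad _ (hd _), eval_quad _ (hd _)] at this
    simpa [compO, ptO, DZ] using this
  have q0 : (((P 0).coeff 0) + ((P 0).coeff 1) * 0 + ((P 0).coeff 2) * 0 ^ 2) = 0 := by
    have h2 := hq 0 (by decide)
    rw [eval_quad _ (hd _)] at h2
    simpa [compO, ptO] using h2
  have q1 : (((P 0).coeff 0) + ((P 0).coeff 1) * (-1) + ((P 0).coeff 2) * (-1) ^ 2) = 0 := by
    have h2 := hq 1 (by decide)
    rw [eval_quad _ (hd _)] at h2
    simpa [compO, ptO] using h2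
  have q2 : (((P 0).coeff 0) + ((P 0).coeff 1) * 2 + ((P 0).coeff 2) * 2 ^ 2) = 0 := by
    have h2 := hq 3 (by decide)
    rw [eval_quad _ (hd _)] at h2
    simpa [compO, ptO] using h2
  have q3 : (((P 1).coeff 0) + ((P 1).coeff 1) * 0 + ((P 1).coeff 2) * 0 ^ 2) = 0 := by
    have h2 := hq 4 (by decide)
    rw [eval_quad _ (hd _)] at h2
    simpa [compO, ptO] using h2
  have q4 : (((P 1).coeff 0) + ((P 1).coeff 1) * 2 + ((P 1).coeff 2) * 2 ^ 2) = 0 := by
    have h2 := hq 5 (by decide)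
    rw [eval_quad _ (hd _)] at h2
    simpa [compO, ptO] using h2
  have q5 : (((P 2).coeff 0) + ((P 2).coeff 1) * (-1) + ((P 2).coeff 2) * (-1) ^ 2) = 0 := by
    have h2 := hq 7 (by decide)
    rw [eval_quad _ (hd _)] at h2
    simpa [compO, ptO] using h2
  have q6 : (((P 3).coeff 0) + ((P 3).coeff 1) * 0 + ((P 3).coeff 2) * 0 ^ 2) = 0 := by
    have h2 := hq 9 (by decide)
    rw [eval_quad _ (hd _)] at h2
    simpa [compO, ptO] using h2
  have c0 : ((P 0).coeff 0) = 0 := by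
    linear_combination q0
  have c1 : ((P 0).coeff 1) = 0 := by
    linear_combination (1/2) * q0 - (2/3) * q1 + (1/6) * q2
  have c2 : ((P 0).coeff 2) = 0 := by
    linear_combination - (1/2) * q0 + (1/3) * q1 + (1/6) * q2
  have c3 : ((P 1).coeff 0) = 0 := by
    linear_combination q3
  have c4 : ((P 1).coeff 1) = 0 := by
    linear_combination - (1/3) * g0 - 2 * q0 + (1/2) * q3 + (1/6) * q4
  have c5 : ((P 1).coeff 2) = 0 := by
    linear_combination (1/6) * g0 + q0 - (1/2) * q3 + (1/6) * q4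
  have c6 : ((P 2).coeff 0) = 0 := by
    linear_combination - (1/6) * g1 - (1/6) * g4 - (1/3) * q1 + q3 + (1/3) * q5
  have c7 : ((P 2).coeff 1) = 0 := by
    linear_combination - (1/12) * g1 - (1/6) * q1 - (1/2) * q5
  have c8 : ((P 2).coeff 2) = 0 := by
    linear_combination (1/12) * g1 + (1/6) * g4 + (1/6) * q1 - q3 + (1/6) * q5
  have c9 : ((P 3).coeff 0) = 0 := by
    linear_combination q6
  have c10 : ((P 3).coeff 1) = 0 := by
    linear_combination - g2 - (1/12) * g5 - 2 * q0 + (2/3) * q1 - (2/3) * q2 + (1/2) * q4 - (3/2) * q6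
  have c11 : ((P 3).coeff 2) = 0 := by
    linear_combination (1/2) * g2 + (1/12) * g5 + q0 - (1/3) * q1 + (1/3) * q2 - (1/2) * q4 + (1/2) * q6
  have c12 : ((P 4).coeff 0) = 0 := by
    linear_combination - (1/6) * g7 + (1/3) * q5
  have c13 : ((P 4).coeff 1) = 0 := by
    linear_combination (1/36) * g3 - (1/12) * g7 - (1/3) * g9 - (1/6) * q2 + (1/6) * q5 - 2 * q6
  have c14 : ((P 4).coeff 2) = 0 := by
    linear_combination (1/36) * g3 + (1/12) * g7 + (1/6) * g9 - (1/6) * q2 - (1/6) * q5 + q6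
  have c15 : ((P 5).coeff 0) = 0 := by
    linear_combination (1/6) * g1 + (1/6) * g4 + (1/2) * g8 + (1/3) * q1 - q3 - (1/3) * q5
  have c16 : ((P 5).coeff 1) = 0 := by
    linear_combination (1/4) * g0 - (1/4) * g1 - g2 - (1/4) * g4 - (1/9) * g5 + (1/4) * g6 - (3/4) * g8 - (1/3) * g10 - (1/2) * q0 + (1/6) * q1 - (2/3) * q2 + (1/6) * q4 + (1/2) * q5 - 2 * q6
  have c17 : ((P 5).coeff 2) = 0 := by
    linear_combination - (1/4) * g0 + (1/12) * g1 + (1/2) * g2 + (1/12) * g4 + (1/18) * g5 - (1/4) * g6 + (1/4) * g8 + (1/6) * g10 - (1/2) * q0 - (1/6) * q1 + (1/3) * q2 + q3 + (1/6) * q4 - (1/6) * q5 + q6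
  funext v
  ext n
  change (P v).coeff n = (0 : k[X]).coeff n
  rw [coeff_zero]
  by_cases hn : 2 < n
  · exact hd v n hn
  · have hn' : n = 0 ∨ n = 1 ∨ n = 2 := by omega
    fin_cases v
    · rcases hn' with rfl | rfl | rfl
      exacts [c0, c1, c2]
    · rcases hn' with rfl | rfl | rfl
      exacts [c3, c4, c5]
    · rcases hn' with rfl | rfl | rfl
      exacts [c6, c7, c8]
    · rcases hn' with rfl | rfl | rfl
      exacts [c9, c10, c11]
    · rcases hn' with rfl | rfl | rfl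
      exacts [c12, c13, c14]
    · rcases hn' with rfl | rfl | rfl
      exacts [c15, c16, c17]

theorem PhiO_inj : Function.Injective (PhiO (k := k)) := by
  rw [injective_iff_map_eq_zero]
  intro w hw
  obtain ⟨hd, hg⟩ := (mem_omega w.1).1 w.2
  have hq : ∀ i : Fin 7, xO (cot i) w = 0 := fun i => congrFun hw i
  apply Subtype.ext
  refine inj_aux w.1 hd hg fun e he => ?_
  have h1 : (DZ e 0 : k)⁻¹ * (w.1 (compO e 0)).eval (ptO e 0 : k) = 0 := by
    rcases he with rfl | rfl | rfl | rfl | rfl | rfl | rfl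
    exacts [hq 0, hq 1, hq 2, hq 3, hq 4, hq 5, hq 6]
  exact (mul_eq_zero.1 h1).resolve_left (inv_ne_zero (DZ_cast_ne e 0))

theorem PhiO_surj : Function.Surjective (PhiO (k := k)) := by
  rw [← LinearMap.range_eq_top, eq_top_iff, ← (Pi.basisFun k (Fin 7)).span_eq, Submodule.span_le]
  rintro _ ⟨j, rfl⟩
  exact ⟨secH j, by rw [PhiO_secO, Pi.basisFun_apply]⟩

/-- The basis of `H⁰(ω)`. -/
noncomputable def basisO : Basis (Fin 7) k (octa k).omega.H0 :=
  Basis.ofEquivFun (LinearEquiv.ofBijective PhiO ⟨PhiO_inj, PhiO_surj⟩)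

theorem basisO_apply (j : Fin 7) : basisO (k := k) j = secH j := by
  rw [basisO, Basis.coe_ofEquivFun]
  change (LinearEquiv.ofBijective PhiO ⟨PhiO_inj, PhiO_surj⟩).symm (Pi.single j 1) = secH j
  rw [LinearEquiv.symm_apply_eq, LinearEquiv.ofBijective_apply, PhiO_secO]

end Pool.Agent.U174.Green.Octa
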