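import Pool.Agent.U174.Green.Koszul

set_option autoImplicit false

namespace Pool.Agent.U174.Green

open TensorProduct Module

section Pairing

variable {k : Type} [Field k] {W : Type} [AddCommGroup W] [Module k W]

/-- The functional `a ⊗ b ↦ f a * g b`. -/
noncomputable def tp {A B : Type} [AddCommGroup A] [Module k A] [AddCommGroup B] [Module k B]
    (f : A →ₗ[k] k) (g : B →ₗ[k] k) : A ⊗[k] B →ₗ[k] k :=
  LinearMap.mul' k k ∘ₗ TensorProduct.map f g

theorem tp_tmul {A B : Type} [AddCommGroup A] [Module k A] [AddCommGroup B] [Module k B]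
    (f : A →ₗ[k] k) (g : B →ₗ[k] k) (a : A) (b : B) : tp f g (a ⊗ₜ[k] b) = f a * g b := by
  simp [tp]

/-- The functional on the exterior power given by functionals `ψ₀, ..., ψ_{n-1}`. -/
noncomputable def ext (n : ℕ) : (Dual k W) [⋀^Fin n]→ₗ[k] Dual k (⋀[k]^n W) :=
  exteriorPower.alternatingMapToDual k W n

theorem ext_ιMulti (n : ℕ) (ψ : Fin n → Dual k W) (w : Fin n → W) :
    ext n ψ (exteriorPower.ιMulti k n w) = (Matrix.of fun i j => ψ j (w i)).det := by
  rw [ext, exteriorPower.alternatingMapToDual_apply_ιMulti]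

theorem pair_coprod (n : ℕ) (ψ : Fin n → Dual k W) (x : Dual k W) (u : ⋀[k]^(n + 1) W) :
    tp (ext n ψ) x (coprod W n u) = ext (n + 1) (Matrix.vecCons x ψ) u := by
  have hu : u ∈ Submodule.span k (Set.range (exteriorPower.ιMulti k (n + 1) (M := W))) := by
    rw [exteriorPower.ιMulti_span]
    trivial
  induction hu using Submodule.span_induction with
  | zero => simp
  | add x y _ _ hx hy => rw [map_add, map_add, map_add, hx, hy]
  | smul c x _ hx => rw [map_smul, map_smul, map_smul, hx]
  | mem u hu =>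
    obtain ⟨w, rfl⟩ := hu
    rw [coprod_ιMulti, map_sum, ext_ιMulti, Matrix.det_succ_column_zero]
    refine Finset.sum_congr rfl fun i _ => ?_
    rw [map_smul, tp_tmul, ext_ιMulti, smul_eq_mul]
    have : (Matrix.of fun i j => (Matrix.vecCons x ψ) j (w i)).submatrix i.succAbove Fin.succ =
        Matrix.of fun i' j => ψ j (i.removeNth w i') := by
      ext a b
      rfl
    rw [this]
    simp
    ring

variable {M M' : Type} [AddCommGroup M] [Module k M] [AddCommGroup M'] [Module k M']

theorem pair_koszulD_tmul (μ : W →ₗ[k] M →ₗ[k] M') (n : ℕ) (ψ : Fin n → Dual k W)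
    (y : Dual k M') (u : ⋀[k]^(n + 1) W) (m : M) :
    tp (ext n ψ) y (koszulD μ n (u ⊗ₜ[k] m)) =
      ext (n + 1) (Matrix.vecCons (y ∘ₗ μ.flip m) ψ) u := by
  rw [← pair_coprod]
  have h : ∀ v : (⋀[k]^n W) ⊗[k] W, tp (ext n ψ) y
      ((LinearMap.lTensor (⋀[k]^n W) (TensorProduct.lift μ))
        ((TensorProduct.assoc k (⋀[k]^n W) W M) (v ⊗ₜ[k] m))) =
      tp (ext n ψ) (y ∘ₗ μ.flip m) v := by
    intro v
    induction v using TensorProduct.induction_on with
    | zero => simp
    | add a b ha hb => rw [TensorProduct.add_tmul, map_add, map_add, map_add, map_add, ha, hb]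
    | tmul a b => simp [tp_tmul]
  exact h _

/-- If the functionals `x` on `W`, `x'` on `M` and `y` on `M'` satisfy `y (μ w m) = x w * x' m`,
then the value of `ψ ⊗ y` on the Koszul differential of `T` is the one of `(x ∧ ψ) ⊗ x'` on `T`. -/
theorem pair_koszulD (μ : W →ₗ[k] M →ₗ[k] M') (n : ℕ) (ψ : Fin n → Dual k W)
    (x : Dual k W) (x' : Dual k M) (y : Dual k M') (h : ∀ w m, y (μ w m) = x w * x' m)
    (T : (⋀[k]^(n + 1) W) ⊗[k] M) :
    tp (ext n ψ) y (koszulD μ n T) = tp (ext (n + 1) (Matrix.vecCons x ψ)) x' T := by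
  induction T using TensorProduct.induction_on with
  | zero => simp
  | add a b ha hb => rw [map_add, map_add, map_add, ha, hb]
  | tmul u m =>
    rw [pair_koszulD_tmul, tp_tmul]
    have : y ∘ₗ μ.flip m = x' m • x := by
      ext w
      simp [h, mul_comm]
    rw [this]
    have h2 : ∀ (c : k), ext (n + 1) (Matrix.vecCons (c • x) ψ) =
        c • ext (n + 1) (Matrix.vecCons x ψ) := by
      intro c
      have := (ext (k := k) (W := W) (n + 1)).curryLeft.map_smul c x
      exact DFunLike.congr_fun this ψ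
    rw [h2, LinearMap.smul_apply, smul_eq_mul, mul_comm]

end Pairing

end Pool.Agent.U174.Green
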