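import Pool.Agent.U174.Green.Cliff

/-!
# The degrees on the components, with the torsion

At a node at which the torsion free sheaf `F` is not locally free the sheaf `F ⊗ 𝒪_{C_v}` has a
torsion submodule of length one, for both components through the node. The degree
`χ(F ⊗ 𝒪_{C_v}) - χ(𝒪_{C_v})` is thus the degree modulo torsion plus the number of these nodes on
the component. Here is the Clifford index for this reading of `deg F|_{C_v}`.
-/

set_option autoImplicit false

namespace Pool.Agent.U174.Green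

open Polynomial Module

namespace LineCurve

variable {k : Type} [Field k]

/-- The degree `χ(F ⊗ 𝒪_{C_v}) - χ(𝒪_{C_v})` of the restriction of `F` to the component `v`,
together with its torsion: the torsion has length one at every node on `v` at which `F` is not
locally free. -/
def TFSheaf.degT {C : LineCurve k} (F : C.TFSheaf) (v : Fin C.V) : ℤ :=
  F.deg v + ((C.branches v).filter fun x => x.1 ∉ F.free).card

variable (C : LineCurve k)

/-- The Clifford indices of the torsion free sheaves `F` of rank one with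
`0 ≤ deg F|_{C_v} ≤ deg ω_C|_{C_v}` for all `v`, `h⁰(F) ≥ 2` and `h¹(F) ≥ 2`, where the degree of
`F|_{C_v} = F ⊗ 𝒪_{C_v}` counts the torsion. -/
def cliffordSetT : Set ℤ :=
  {c | ∃ F : C.TFSheaf, (∀ v, 0 ≤ F.degT v ∧ F.degT v ≤ C.omega.degT v) ∧ 2 ≤ F.h0 ∧ 2 ≤ F.h1 ∧
    c = F.cliff}

/-- The minimum of the set `cliffordSetT`. -/
noncomputable def cliffT : ℤ := sInf C.cliffordSetT

end LineCurve

section general

variable {k : Type} [Field k] {C : LineCurve k}

theorem card_branches_le (v : Fin C.V) : (C.branches v).card ≤ 2 * C.E := by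
  refine (Finset.card_le_univ _).trans ?_
  rw [Fintype.card_prod, Fintype.card_fin, Fintype.card_fin, mul_comm]

theorem degT_omega (v : Fin C.V) : C.omega.degT v = C.omega.deg v := by
  have h : ((C.branches v).filter fun x => x.1 ∉ C.omega.free) = ∅ := by
    refine Finset.filter_eq_empty_iff.2 fun x _ hx => hx ?_
    change x.1 ∈ (Finset.univ : Finset (Fin C.E))
    exact Finset.mem_univ _
  rw [LineCurve.TFSheaf.degT, h, Finset.card_empty]
  simp

theorem bddBelow_cliffordSetT : BddBelow C.cliffordSetT := by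
  refine ⟨- 2 * (C.V * (2 * C.E + 1) : ℕ) - C.V * (2 * C.E + 1), ?_⟩
  rintro c ⟨F, h1, -, -, rfl⟩
  have hd : ∀ v, F.deg v ≤ F.degT v := fun v => by
    rw [LineCurve.TFSheaf.degT]
    omega
  have hd' : ∀ v, F.degT v ≤ F.deg v + 2 * C.E := fun v => by
    rw [LineCurve.TFSheaf.degT]
    have := (Finset.card_filter_le (C.branches v) fun x => x.1 ∉ F.free).trans
      (card_branches_le v)
    omega
  have h2 : F.h0 ≤ C.V * (2 * C.E + 1) := h0_le F _ fun v => by
    have h := (h1 v).2
    rw [degT_omega] at h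
    exact ((hd v).trans h).trans_lt (deg_omega_lt v)
  have h3 : -(C.V * (2 * C.E) : ℤ) + C.V ≤ ∑ v, (F.deg v + 1) := by
    calc -(C.V * (2 * C.E) : ℤ) + C.V = ∑ _v : Fin C.V, (-(2 * C.E : ℤ) + 1) := by
          rw [Finset.sum_const, Finset.card_univ, Fintype.card_fin, nsmul_eq_mul]
          ring
      _ ≤ _ := Finset.sum_le_sum fun v _ => by linarith [(h1 v).1, hd' v]
  have h4 : F.free.card ≤ C.E := by
    refine (Finset.card_le_univ _).trans ?_
    rw [Fintype.card_fin]
  have h5 : C.structureSheaf.chi = C.V - C.E := by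
    simp [LineCurve.TFSheaf.chi, LineCurve.structureSheaf]
  rw [LineCurve.TFSheaf.cliff, LineCurve.TFSheaf.degree, h5, LineCurve.TFSheaf.chi]
  have h2' : (F.h0 : ℤ) ≤ ((C.V * (2 * C.E + 1) : ℕ) : ℤ) := by exact_mod_cast h2
  have h4' : (F.free.card : ℤ) ≤ C.E := by exact_mod_cast h4
  have h6 : (0 : ℤ) ≤ C.V := Int.natCast_nonneg _
  push_cast at h2' ⊢
  linarith

theorem isLeast_cliffT (h : C.cliffordSetT.Nonempty) : IsLeast C.cliffordSetT C.cliffT :=
  ⟨Int.csInf_mem h bddBelow_cliffordSetT, fun _ hc => csInf_le bddBelow_cliffordSetT hc⟩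

end general

namespace Octa

/-- The degrees of the dualizing sheaf of the disjoint union of the component `0` and the union of
the other components. -/
def ddeg : Fin 6 → ℤ := ![-2, 1, 1, 1, 1, 2]

/-- The numerators of the gluing constants of this sheaf. -/
def gN : Fin 12 → ℤ := ![1, 1, 1, 1, -3, -3, 6, 1, 1, 1, 2, 3]

/-- The denominators of the gluing constants of this sheaf. -/
def gD : Fin 12 → ℤ := ![1, 1, 1, 1, 1, 1, 1, 3, 1, 1, 3, 1]

theorem gN_ne : ∀ e, gN e ≠ 0 := by decide

theorem gD_ne : ∀ e, gD e ≠ 0 := by decide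

/-- The coefficients of four sections of this sheaf. -/
def DSEC : Fin 4 → Fin 6 → Fin 3 → ℤ :=
  ![![![0, 0, 0], ![2, -1, 0], ![-2, -2, 0], ![0, 0, 0], ![0, 0, 0], ![-2, 0, 2]],
    ![![0, 0, 0], ![0, 1, 0], ![0, 0, 0], ![0, -3, 0], ![0, 0, 0], ![0, 1, 1]],
    ![![0, 0, 0], ![0, 0, 0], ![2, -1, 0], ![0, 0, 0], ![1, 1, 0], ![2, -3, 1]],
    ![![0, 0, 0], ![0, 0, 0], ![0, 0, 0], ![-2, 1, 0], ![0, 2, 0], ![0, -4, 2]]]

/-- The values of these sections. -/
def devZ (j : Fin 4) (v : Fin 6) (a : ℤ) : ℤ := DSEC j v 0 + DSEC j v 1 * a + DSEC j v 2 * a ^ 2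

theorem devZ_glue : ∀ j e, compO e 0 ≠ 0 ∧ compO e 1 ≠ 0 →
    devZ j (compO e 1) (ptO e 1) * gD e = gN e * devZ j (compO e 0) (ptO e 0) := by
  decide +kernel

theorem DSEC_deg : ∀ j v (n : Fin 3), ddeg v < (n : ℕ) → DSEC j v n = 0 := by
  decide +kernel

theorem ddeg_lt : ∀ v, ddeg v < 3 := by decide

variable (k : Type) [Field k] [CharZero k]

/-- The dualizing sheaf of the disjoint union of the component `0` and the union of the other
components. -/
def dualSheaf : (octa k).TFSheaf where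
  deg := ddeg
  free := Finset.univ.filter fun e : Fin 12 => compO e 0 ≠ 0 ∧ compO e 1 ≠ 0
  glue e := (gN e : k) / (gD e : k)
  glue_ne e := div_ne_zero (Int.cast_ne_zero.2 (gN_ne e)) (Int.cast_ne_zero.2 (gD_ne e))

/-- The four sections. -/
noncomputable def dsec (j : Fin 4) (v : Fin 6) : k[X] :=
  C (DSEC j v 0 : k) + C (DSEC j v 1 : k) * X + C (DSEC j v 2 : k) * X ^ 2

omit [CharZero k] in
theorem eval_dsec (j : Fin 4) (v : Fin 6) (a : ℤ) :
    (dsec k j v).eval (a : k) = (devZ j v a : k) := by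
  simp [dsec, devZ]

omit [CharZero k] in
theorem coeff_dsec (j : Fin 4) (v : Fin 6) (n : ℕ) :
    (dsec k j v).coeff n = if h : n < 3 then (DSEC j v ⟨n, h⟩ : k) else 0 := by
  rw [dsec, coeff_add, coeff_add, coeff_C_mul, coeff_C_mul, coeff_C, coeff_X, coeff_X_pow]
  by_cases hn : n < 3
  · interval_cases n <;> simp
  · have h0 : n ≠ 0 := by omega
    have h1 : 1 ≠ n := by omega
    have h2 : n ≠ 2 := by omega
    rw [if_neg h0, if_neg h1, if_neg h2, dif_neg hn, mul_zero, mul_zero, add_zero, add_zero]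

theorem dsec_mem (j : Fin 4) : dsec k j ∈ (dualSheaf k).H0 := by
  refine ⟨fun v n hn => ?_, fun e he => ?_⟩
  · rw [coeff_dsec]
    split_ifs with h
    · have := DSEC_deg j v ⟨n, h⟩ hn
      rw [this, Int.cast_zero]
    · rfl
  · have he' := (Finset.mem_filter.1 he).2
    change (dsec k j (compO e 1)).eval (ptO e 1 : k) =
      (gN e : k) / (gD e : k) * (dsec k j (compO e 0)).eval (ptO e 0 : k)
    rw [eval_dsec, eval_dsec, div_mul_eq_mul_div, eq_div_iff (Int.cast_ne_zero.2 (gD_ne e))]
    exact_mod_cast devZ_glue j e he'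

/-- The linear map to the sections. -/
noncomputable def dualMap : (Fin 4 → k) →ₗ[k] (dualSheaf k).H0 :=
  Fintype.linearCombination k fun j => (⟨dsec k j, dsec_mem k j⟩ : (dualSheaf k).H0)

theorem coeff_dualMap (a : Fin 4 → k) (v : Fin 6) (n : ℕ) :
    ((dualMap k a).1 v).coeff n = ∑ j, a j * (dsec k j v).coeff n := by
  rw [dualMap, Fintype.linearCombination_apply]
  have h : ∀ v, ((∑ j, a j • (⟨dsec k j, dsec_mem k j⟩ : (dualSheaf k).H0) :
      (dualSheaf k).H0).1 : Fin 6 → k[X]) v = ∑ j, a j • dsec k j v := by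
    intro v
    rw [Submodule.coe_sum, Finset.sum_apply]
    rfl
  rw [h, finsetSum_coeff]
  refine Finset.sum_congr rfl fun j _ => ?_
  rw [coeff_smul, smul_eq_mul]

theorem dualMap_inj : Function.Injective (dualMap k) := by
  rw [injective_iff_map_eq_zero]
  intro a ha
  have h : ∀ v n, ∑ j, a j * (dsec k j v).coeff n = 0 := by
    intro v n
    rw [← coeff_dualMap, ha]
    exact coeff_zero n
  have h0 := h 1 0
  have h1 := h 1 1
  have h2 := h 2 0
  have h3 := h 3 0
  simp only [coeff_dsec, Fin.sum_univ_four] at h0 h1 h2 h3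
  simp [DSEC] at h0 h1 h2 h3
  have h2' : (2 : k) ≠ 0 := two_ne_zero
  have e1 : a 1 = 0 := by rw [h0] at h1; simpa using h1
  have e2 : a 2 = 0 := by
    rw [h0] at h2
    simpa [h2'] using h2
  funext j
  fin_cases j
  exacts [h0, e1, e2, h3]

theorem four_le_h0_dualSheaf : 4 ≤ (dualSheaf k).h0 := by
  have := finite_H0 (dualSheaf k)
  have h := LinearMap.finrank_le_finrank_of_injective (dualMap_inj k)
  rw [Module.finrank_fin_fun] at h
  exact h

theorem chi_dualSheaf : (dualSheaf k).chi = 2 := by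
  change ∑ v : Fin 6, (ddeg v + 1) -
    ((Finset.univ.filter fun e : Fin 12 => compO e 0 ≠ 0 ∧ compO e 1 ≠ 0).card : ℤ) = 2
  decide +kernel

theorem degT_dualSheaf_aux : ∀ v : Fin 6, ddeg v +
    (((Finset.univ.filter fun x : Fin 12 × Fin 2 => compO x.1 x.2 = v).filter fun x =>
      x.1 ∉ Finset.univ.filter fun e : Fin 12 => compO e 0 ≠ 0 ∧ compO e 1 ≠ 0).card : ℤ) = 2 := by
  decide +kernel

theorem cliff_memT : (dualSheaf k).cliff ∈ (octa k).cliffordSetT := by
  have h4 := four_le_h0_dualSheaf k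
  refine ⟨dualSheaf k, fun v => ?_, by omega, ?_, rfl⟩
  · have h : (dualSheaf k).degT v = 2 := degT_dualSheaf_aux v
    rw [degT_omega, h, deg_omega (k := k) v]
    norm_num
  · rw [LineCurve.TFSheaf.h1, chi_dualSheaf]
    omega

theorem cliffT_le : (octa k).cliffT ≤ 2 := by
  refine (csInf_le bddBelow_cliffordSetT (cliff_memT k)).trans ?_
  rw [LineCurve.TFSheaf.cliff, LineCurve.TFSheaf.degree, chi_dualSheaf, chi_structureSheaf]
  have := four_le_h0_dualSheaf k
  omega

end Octa

end Pool.Agent.U174.Green
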